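import Pool.Agent.Lib.MP_3145b1_co.Spec

set_option autoImplicit false

namespace Pool.Agent.MP3145b1

open Finset

theorem jen : S_Jen := by
  intro ι _ p w hp h1 hw
  have := (strictConcaveOn_log_Ioi.concaveOn).le_map_sum (t := Finset.univ) (w := p) (p := w)
    (fun i _ => hp i) h1 (fun i _ => hw i)
  simpa [smul_eq_mul] using this

end Pool.Agent.MP3145b1
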