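import Pool.Agent.Lib.MP_3145b1_co.Cube

set_option autoImplicit false

namespace Pool.Agent.MP3145b1

open Finset

variable {n : ℕ}

/-- Spectral entropy `Ent(f)` in bits. -/
noncomputable def specEntropy (f : (Fin n → Bool) → ℝ) : ℝ :=
  ∑ S : Finset (Fin n), coeff f S ^ 2 * Real.logb 2 (1 / coeff f S ^ 2)

/-- The exponential moment `∑ (1 + u) ^ |S| coeff f S ^ 2` of the spectral distribution. -/
noncomputable def expMoment (f : (Fin n → Bool) → ℝ) (u : ℝ) : ℝ :=
  ∑ S : Finset (Fin n), (1 + u) ^ S.card * coeff f S ^ 2

theorem coeff_parseval (hPar : S_Par) (f : (Fin n → Bool) → ℝ) (hf : ∀ x, f x = 1 ∨ f x = -1) :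
    ∑ S : Finset (Fin n), coeff f S ^ 2 = 1 := by
  have h1 := hPar n (fun A => f (cubeEquiv (fun _ => false) A))
  simp only [← coeff_sq] at h1
  rw [h1]
  have h2 : ∀ A : Finset (Fin n), f (cubeEquiv (fun _ => false) A) ^ 2 = 1 := by
    intro A
    rcases hf (cubeEquiv (fun _ => false) A) with h | h <;> rw [h] <;> norm_num
  simp only [h2]
  rw [Finset.sum_const, Finset.card_univ, Fintype.card_finset, Fintype.card_fin, nsmul_eq_mul,
    mul_one]
  push_cast
  rw [← mul_pow]
  norm_num

theorem expMoment_ge_one (hPar : S_Par) (f : (Fin n → Bool) → ℝ) (hf : ∀ x, f x = 1 ∨ f x = -1)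
    (u : ℝ) (hu : 0 < u) : 1 ≤ expMoment f u := by
  rw [← coeff_parseval hPar f hf]
  unfold expMoment
  apply Finset.sum_le_sum
  intro S _
  have h1 : (1 : ℝ) ≤ (1 + u) ^ S.card := one_le_pow₀ (by linarith)
  have h2 : 0 ≤ coeff f S ^ 2 := sq_nonneg _
  nlinarith

theorem entropy_bound (hE : S_EntB) (f : (Fin n → Bool) → ℝ) (hf : ∀ x, f x = 1 ∨ f x = -1)
    (u : ℝ) (hu : 0 < u) :
    specEntropy f ≤ 2 * Real.logb 2 (2 / u) * influence f + 2 * Real.logb 2 (expMoment f u) := by
  have h1 := hE n (fun A => f (cubeEquiv (fun _ => false) A)) (fun A => hf _) u hu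
  rw [← influence_eq (fun _ => false) f] at h1
  simp only [← coeff_sq] at h1
  have hl : 0 < Real.log 2 := Real.log_pos (by norm_num)
  have h2 : specEntropy f =
      (∑ S : Finset (Fin n), coeff f S ^ 2 * Real.log (1 / coeff f S ^ 2)) / Real.log 2 := by
    unfold specEntropy
    rw [Finset.sum_div]
    apply Finset.sum_congr rfl
    intro S _
    unfold Real.logb
    ring
  rw [h2]
  have h3 : 2 * Real.logb 2 (2 / u) * influence f + 2 * Real.logb 2 (expMoment f u) =
      (2 * Real.log (2 / u) * influence f + 2 * Real.log (expMoment f u)) / Real.log 2 := by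
    unfold Real.logb
    ring
  rw [h3]
  exact (div_le_div_iff_of_pos_right hl).mpr h1

theorem influence_nonneg (f : (Fin n → Bool) → ℝ) : 0 ≤ influence f :=
  Finset.sum_nonneg (fun S _ => by positivity)

theorem entropy_degree (hPar : S_Par) (hE : S_EntB) (f : (Fin n → Bool) → ℝ)
    (hf : ∀ x, f x = 1 ∨ f x = -1) (D : ℕ) (hI : 0 < influence f)
    (hD : ∀ S : Finset (Fin n), D < S.card → coeff f S = 0) :
    specEntropy f ≤ 2 * influence f * Real.logb 2 (2 * Real.exp 1 * D / influence f) := by
  have hl : 0 < Real.log 2 := Real.log_pos (by norm_num)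
  have hDp : 0 < D := by
    rcases Nat.eq_zero_or_pos D with h0 | h0
    · exfalso
      have : influence f = 0 := by
        unfold influence
        apply Finset.sum_eq_zero
        intro S _
        rcases Nat.eq_zero_or_pos S.card with h1 | h1
        · rw [h1]; simp
        · rw [hD S (by omega)]; simp
      linarith
    · exact h0
  have hDr : (0 : ℝ) < D := by exact_mod_cast hDp
  set u : ℝ := influence f / D with hu
  have hup : 0 < u := by positivity
  have h1 := entropy_bound hE f hf u hup
  have h2 : expMoment f u ≤ Real.exp (influence f) := by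
    have h3 : (1 + u) ^ D ≤ Real.exp (influence f) := by
      have h4 : 1 + u ≤ Real.exp u := by
        have := Real.add_one_le_exp u
        linarith
      calc (1 + u) ^ D ≤ Real.exp u ^ D := by gcongr
        _ = Real.exp (D * u) := by rw [Real.exp_nat_mul]
        _ = Real.exp (influence f) := by
            congr 1
            rw [hu]
            field_simp
    refine le_trans ?_ h3
    unfold expMoment
    calc ∑ S : Finset (Fin n), (1 + u) ^ S.card * coeff f S ^ 2
        ≤ ∑ S : Finset (Fin n), (1 + u) ^ D * coeff f S ^ 2 := by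
          apply Finset.sum_le_sum
          intro S _
          by_cases hS : D < S.card
          · rw [hD S hS]; simp
          · apply mul_le_mul_of_nonneg_right _ (sq_nonneg _)
            exact pow_le_pow_right₀ (by linarith) (by omega)
      _ = (1 + u) ^ D := by
          rw [← Finset.mul_sum, coeff_parseval hPar f hf, mul_one]
  have h5 : Real.logb 2 (expMoment f u) ≤ influence f / Real.log 2 := by
    unfold Real.logb
    apply (div_le_div_iff_of_pos_right hl).mpr
    rw [← Real.log_exp (influence f)]
    exact Real.log_le_log (lt_of_lt_of_le one_pos (expMoment_ge_one hPar f hf u hup)) h2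
  have h6 : Real.logb 2 (2 * Real.exp 1 * D / influence f) =
      Real.logb 2 (2 / u) + 1 / Real.log 2 := by
    have : 2 * Real.exp 1 * D / influence f = (2 / u) * Real.exp 1 := by
      rw [hu]
      field_simp
    rw [this, Real.logb_mul (by positivity) (by positivity)]
    congr 1
    unfold Real.logb
    rw [Real.log_exp]
  rw [h6]
  calc specEntropy f ≤ _ := h1
    _ ≤ 2 * Real.logb 2 (2 / u) * influence f + 2 * (influence f / Real.log 2) := by linarith
    _ = _ := by ring

theorem exists_large (hPar : S_Par) (hE : S_EntB) (f : (Fin n → Bool) → ℝ)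
    (hf : ∀ x, f x = 1 ∨ f x = -1) (u : ℝ) (hu : 0 < u) :
    ∃ S : Finset (Fin n), (u / 2) ^ influence f / expMoment f u ≤ |coeff f S| := by
  have h1 := entropy_bound hE f hf u hu
  have hl : 0 < Real.log 2 := Real.log_pos (by norm_num)
  have hM := expMoment_ge_one hPar f hf u hu
  have hMp : 0 < expMoment f u := by linarith
  by_contra hcon
  push Not at hcon
  set B : ℝ := (u / 2) ^ influence f / expMoment f u with hB
  have hBp : 0 < B := by positivity
  have hlB : Real.logb 2 (1 / B ^ 2) =
      2 * Real.logb 2 (2 / u) * influence f + 2 * Real.logb 2 (expMoment f u) := by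
    have e1 : Real.log (1 / B ^ 2) =
        2 * (Real.log (2 / u) * influence f) + 2 * Real.log (expMoment f u) := by
      rw [Real.log_div one_ne_zero (by positivity), Real.log_one, Real.log_pow, hB,
        Real.log_div (by positivity) hMp.ne', Real.log_rpow (by positivity),
        Real.log_div hu.ne' two_ne_zero, Real.log_div two_ne_zero hu.ne']
      push_cast
      ring
    unfold Real.logb
    rw [e1]
    ring
  rw [← hlB] at h1
  have h2 : Real.logb 2 (1 / B ^ 2) < specEntropy f := by
    have e1 : Real.logb 2 (1 / B ^ 2) = ∑ S : Finset (Fin n), coeff f S ^ 2 *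
        Real.logb 2 (1 / B ^ 2) := by
      rw [← Finset.sum_mul, coeff_parseval hPar f hf, one_mul]
    rw [e1]
    unfold specEntropy
    have hkey : ∀ S : Finset (Fin n), coeff f S ≠ 0 →
        Real.logb 2 (1 / B ^ 2) < Real.logb 2 (1 / coeff f S ^ 2) := by
      intro S hS
      have h3 : 0 < coeff f S ^ 2 := by positivity
      have h4 : coeff f S ^ 2 < B ^ 2 := by
        rw [← sq_abs (coeff f S)]
        exact pow_lt_pow_left₀ (hcon S) (abs_nonneg _) two_ne_zero
      apply Real.logb_lt_logb (by norm_num) (by positivity)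
      exact one_div_lt_one_div_of_lt h3 h4
    have hex : ∃ S : Finset (Fin n), coeff f S ≠ 0 := by
      by_contra hno
      push Not at hno
      have := coeff_parseval hPar f hf
      simp [hno] at this
    apply Finset.sum_lt_sum
    · intro S _
      by_cases hS : coeff f S = 0
      · rw [hS]; simp
      · exact mul_le_mul_of_nonneg_left (hkey S hS).le (sq_nonneg _)
    · obtain ⟨S, hS⟩ := hex
      exact ⟨S, Finset.mem_univ _, mul_lt_mul_of_pos_left (hkey S hS) (by positivity)⟩
  linarith

end Pool.Agent.MP3145b1
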