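import Pool.Agent.Lib.MP_3145b1_co.Spec

set_option autoImplicit false

namespace Pool.Agent.MP3145b1

open Finset

variable {n : ℕ}

theorem ff_pm (P : Finset (Finset (Fin n))) (A : Finset (Fin n)) : ff P A = 1 ∨ ff P A = -1 := by
  classical
  unfold ff
  induction P using Finset.induction_on with
  | empty => simp
  | insert M P hM ih =>
    rw [Finset.prod_insert hM]
    rcases ih with h | h <;> rw [h] <;> unfold sg <;> split_ifs <;> simp

private theorem hr_mono {d K K' : ℕ} (hK : K ≤ K') {P : Finset (Finset (Fin n))}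
    (h : HR d K P) : HR d K' P := by
  intro v m hm
  refine (h v m hm).trans ?_
  exact_mod_cast hK

private theorem hr_sub {d K : ℕ} {P G : Finset (Finset (Fin n))} (hG : G ⊆ P)
    (h : HR d K P) : HR d K G := by
  intro v m hm
  refine (Finset.sum_le_sum_of_subset_of_nonneg (Finset.filter_subset_filter _ hG) ?_).trans
    (h v m hm)
  intro i _ _
  positivity

private theorem inf1_nonneg (f : Finset (Fin n) → ℝ) (v : Fin n) : 0 ≤ inf1 f v := by
  unfold inf1
  positivity

private theorem exp_aux (K : ℕ) (m : ℕ) (hm : 20 * K + 13 ≤ m) :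
    2 * Real.exp (3 * K) * (1 / 2 : ℝ) ^ m ≤ 1 / 2 := by
  have h1 : Real.exp (3 * K) ≤ (2 : ℝ) ^ (6 * K) := by
    have : Real.exp (3 * (K : ℝ)) = (Real.exp 1) ^ (3 * K) := by
      rw [← Real.exp_nat_mul]
      push_cast
      ring_nf
    rw [this]
    have h2 : Real.exp 1 ≤ (2 : ℝ) ^ 2 := by
      have := Real.exp_one_lt_d9
      norm_num at this ⊢
      linarith
    calc (Real.exp 1) ^ (3 * K) ≤ ((2 : ℝ) ^ 2) ^ (3 * K) := by
          gcongr
      _ = (2 : ℝ) ^ (6 * K) := by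
          rw [← pow_mul]
          congr 1
          ring
  obtain ⟨r, hr⟩ := Nat.exists_eq_add_of_le hm
  have h3 : (1 / 2 : ℝ) ^ m ≤ (1 / 2 : ℝ) ^ (6 * K + 2) := by
    apply pow_le_pow_of_le_one (by norm_num) (by norm_num)
    omega
  calc 2 * Real.exp (3 * K) * (1 / 2 : ℝ) ^ m
      ≤ 2 * (2 : ℝ) ^ (6 * K) * (1 / 2 : ℝ) ^ (6 * K + 2) := by
        gcongr
    _ = 2 * ((2 : ℝ) * (1 / 2)) ^ (6 * K) * (1 / 2 : ℝ) ^ 2 := by
        rw [mul_pow, pow_add]
        ring
    _ ≤ 1 / 2 := by norm_num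

theorem asm (hI : S_ZIns) (hP : S_ZPr) (hA : S_ZAv) (hF : S_FSub) (h1 : S_Inf1) (hT : S_Tail)
    (hL : S_InfL) : S_Main := by
  classical
  intro d K₀
  obtain ⟨K, hKdef⟩ : ∃ K, K = K₀ + 1 := ⟨_, rfl⟩
  obtain ⟨D, hD⟩ : ∃ D, D = d + 20 * K + 12 := ⟨_, rfl⟩
  have hK1 : 1 ≤ K := by omega
  set C1 : ℝ := Real.log 2 * 2 ^ (D + 4 * K) with hC1
  set C2 : ℝ := 4 * Real.exp (3 * K) * (K * 2 ^ (4 * K)) with hC2
  have hC1p : 0 < C1 := by
    have := Real.log_pos (by norm_num : (1 : ℝ) < 2)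
    positivity
  have hC2p : 0 < C2 := by
    have : (0 : ℝ) < K := by exact_mod_cast hK1
    positivity
  refine ⟨C1 + C2, by positivity, ?_⟩
  intro n P hHR₀
  have hHR : HR d K P := hr_mono (by omega) hHR₀
  set f := ff P with hf
  have hpm : ∀ A, f A = 1 ∨ f A = -1 := ff_pm P
  have htinf := h1 n f hpm
  -- the set T
  set T : Finset (Fin n) := (P.filter (fun M => M.card ≤ D)).biUnion id with hTdef
  have hTinf : ∀ v ∈ T, (1 / 2 : ℝ) ^ (D + 4 * K) ≤ inf1 f v := by
    intro v hv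
    rw [hTdef, Finset.mem_biUnion] at hv
    obtain ⟨M, hM, hvM⟩ := hv
    rw [Finset.mem_filter] at hM
    have := hL n d K D P hHR hK1 (by omega) (by omega) M hM.1 v hvM
    rwa [max_eq_right hM.2] at this
  have hTcard : (T.card : ℝ) * (1 / 2 : ℝ) ^ (D + 4 * K) ≤ tinf f := by
    rw [htinf]
    calc (T.card : ℝ) * (1 / 2 : ℝ) ^ (D + 4 * K) = ∑ _v ∈ T, (1 / 2 : ℝ) ^ (D + 4 * K) := by
          rw [Finset.sum_const, nsmul_eq_mul]
      _ ≤ ∑ v ∈ T, inf1 f v := Finset.sum_le_sum hTinf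
      _ ≤ ∑ v : Fin n, inf1 f v :=
          Finset.sum_le_sum_of_subset_of_nonneg (Finset.subset_univ _)
            (fun i _ _ => inf1_nonneg f i)
  have htpos : 0 ≤ tinf f := by
    rw [htinf]
    exact Finset.sum_nonneg (fun i _ => inf1_nonneg f i)
  -- the remaining family
  set G : Finset (Finset (Fin n)) := (P.filter (fun M => Disjoint M T)).erase ∅ with hG
  have hGP : G ⊆ P := (Finset.erase_subset _ _).trans (Finset.filter_subset _ _)
  have hGcard : ∀ M ∈ G, D < M.card := by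
    intro M hM
    rw [hG, Finset.mem_erase, Finset.mem_filter] at hM
    by_contra hcon
    have hMT : M ⊆ T := by
      intro v hv
      rw [hTdef, Finset.mem_biUnion]
      exact ⟨M, Finset.mem_filter.mpr ⟨hM.2.1, by omega⟩, hv⟩
    apply hM.1
    have := hM.2.2
    rw [Finset.disjoint_left] at this
    exact Finset.eq_empty_of_forall_notMem (fun v hv => this hv (hMT hv))
  have hGsum : ∑ M ∈ G, (1 / 2 : ℝ) ^ M.card ≤ K * 2 ^ (4 * K) * tinf f := by
    have e1 : ∑ M ∈ G, (1 / 2 : ℝ) ^ M.card ≤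
        ∑ M ∈ G, ∑ v : Fin n, if v ∈ M then (1 / 2 : ℝ) ^ M.card else 0 := by
      apply Finset.sum_le_sum
      intro M hM
      rw [← Finset.sum_filter, Finset.filter_mem_eq_inter, Finset.univ_inter, Finset.sum_const,
        nsmul_eq_mul]
      have : (1 : ℝ) ≤ M.card := by
        have := hGcard M hM
        exact_mod_cast (by omega : 1 ≤ M.card)
      have h2 : (0 : ℝ) < (1 / 2 : ℝ) ^ M.card := by positivity
      nlinarith
    rw [Finset.sum_comm] at e1
    refine e1.trans ?_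
    rw [htinf, Finset.mul_sum]
    apply Finset.sum_le_sum
    intro v _
    rw [← Finset.sum_filter]
    rcases (G.filter (fun M => v ∈ M)).eq_empty_or_nonempty with he | hne
    · rw [he, Finset.sum_empty]
      have := inf1_nonneg f v
      positivity
    · obtain ⟨M₀, hM₀, hmin⟩ := Finset.exists_min_image _ (fun M : Finset (Fin n) => M.card) hne
      rw [Finset.mem_filter] at hM₀
      have hm1 : D < M₀.card := hGcard M₀ hM₀.1
      have e2 : ∑ M ∈ G.filter (fun M => v ∈ M), (1 / 2 : ℝ) ^ M.card ≤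
          ∑ M ∈ P.filter (fun M => v ∈ M ∧ M₀.card ≤ M.card), (1 / 2 : ℝ) ^ M.card := by
        apply Finset.sum_le_sum_of_subset_of_nonneg
        · intro M hM
          have h3 := hmin M hM
          rw [Finset.mem_filter] at hM ⊢
          exact ⟨hGP hM.1, hM.2, h3⟩
        · intro i _ _
          positivity
      have e3 := hT n d K P hHR v M₀.card (by omega)
      have e4 := hL n d K D P hHR hK1 (by omega) (by omega) M₀ (hGP hM₀.1) v hM₀.2
      rw [max_eq_left hm1.le] at e4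
      have e5 : (1 / 2 : ℝ) ^ M₀.card ≤ 2 ^ (4 * K) * inf1 f v := by
        have e6 : (1 / 2 : ℝ) ^ M₀.card = 2 ^ (4 * K) * (1 / 2 : ℝ) ^ (M₀.card + 4 * K) := by
          rw [pow_add, mul_comm ((1 / 2 : ℝ) ^ M₀.card), ← mul_assoc, ← mul_pow]
          norm_num
        rw [e6]
        exact mul_le_mul_of_nonneg_left e4 (by positivity)
      calc _ ≤ _ := e2
        _ ≤ _ := e3
        _ ≤ (K : ℝ) * (2 ^ (4 * K) * inf1 f v) :=
            mul_le_mul_of_nonneg_left e5 (by positivity)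
        _ = _ := by ring
  -- lower bound for ZZ
  have hDr : (20 * K : ℝ) ≤ D := by exact_mod_cast (by omega : 20 * K ≤ D)
  have hZ : Real.exp (-(C2 * tinf f)) ≤ ZZ ∅ G := by
    refine le_trans ?_ (hP n d K G (hr_sub hGP hHR) ?_ ?_)
    · apply Real.exp_le_exp.mpr
      have : 4 * Real.exp (3 * K) * ∑ M ∈ G, (1 / 2 : ℝ) ^ M.card ≤
          4 * Real.exp (3 * K) * (K * 2 ^ (4 * K) * tinf f) :=
        mul_le_mul_of_nonneg_left hGsum (by positivity)
      rw [hC2]
      linarith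
    · intro M hM
      have := hGcard M hM
      exact ⟨by omega, by omega, exp_aux K _ (by omega)⟩
    · intro v
      have e1 := hHR v (D + 1) (by omega)
      have e2 : ∑ M ∈ G.filter (fun M => v ∈ M), 1 / (M.card : ℝ) ≤
          ∑ M ∈ P.filter (fun M => v ∈ M ∧ D + 1 ≤ M.card), 1 / (M.card : ℝ) := by
        apply Finset.sum_le_sum_of_subset_of_nonneg
        · intro M hM
          rw [Finset.mem_filter] at hM ⊢
          exact ⟨hGP hM.1, hM.2, hGcard M hM.1⟩
        · intro i _ _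
          positivity
      have e3 : ∑ M ∈ P.filter (fun M => v ∈ M ∧ D + 1 ≤ M.card), ((D + 1 : ℕ) : ℝ) / M.card =
          ((D + 1 : ℕ) : ℝ) *
            ∑ M ∈ P.filter (fun M => v ∈ M ∧ D + 1 ≤ M.card), 1 / (M.card : ℝ) := by
        rw [Finset.mul_sum]
        apply Finset.sum_congr rfl
        intro M _
        ring
      rw [e3] at e1
      push_cast at e1
      set s := ∑ M ∈ P.filter (fun M => v ∈ M ∧ D + 1 ≤ M.card), 1 / (M.card : ℝ) with hs
      have hs0 : 0 ≤ s := Finset.sum_nonneg (fun i _ => by positivity)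
      have hKr : (1 : ℝ) ≤ K := by exact_mod_cast hK1
      refine e2.trans ?_
      nlinarith
  have hZabs : |ZZ ∅ (P.filter (fun M => Disjoint M T))| = ZZ ∅ G := by
    have hpos : 0 < ZZ ∅ G := lt_of_lt_of_le (Real.exp_pos _) hZ
    by_cases hE : ∅ ∈ P.filter (fun M => Disjoint M T)
    · have e1 : P.filter (fun M => Disjoint M T) = insert ∅ G := by
        rw [hG, Finset.insert_erase hE]
      have e2 := hI n ∅ ∅ G (by rw [hG]; exact Finset.notMem_erase _ _)
      rw [e1, e2]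
      simp only [Finset.sdiff_self, Finset.card_empty, pow_zero, mul_one, Finset.empty_union]
      rw [show ZZ ∅ G - 2 * ZZ ∅ G = -ZZ ∅ G by ring, abs_neg, abs_of_pos hpos]
    · rw [hG, Finset.erase_eq_of_notMem hE] at *
      exact abs_of_pos hpos
  -- conclusion
  have hsum := hF n f T
  rw [hf, hA n T P] at hsum
  have hex : ∃ S ∈ T.powerset, (1 / 2 : ℝ) ^ T.card * ZZ ∅ G ≤ |fc f S| := by
    by_contra hcon
    push Not at hcon
    have e1 : ∑ S ∈ T.powerset, |fc f S| < ∑ _S ∈ T.powerset, (1 / 2 : ℝ) ^ T.card * ZZ ∅ G :=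
      Finset.sum_lt_sum_of_nonempty ⟨∅, Finset.empty_mem_powerset T⟩ hcon
    rw [Finset.sum_const, Finset.card_powerset, nsmul_eq_mul] at e1
    have e2 := Finset.abs_sum_le_sum_abs (fun S => fc f S) T.powerset
    rw [hf] at e2
    rw [hsum, hZabs] at e2
    have e3 : ((2 ^ T.card : ℕ) : ℝ) * ((1 / 2 : ℝ) ^ T.card * ZZ ∅ G) = ZZ ∅ G := by
      push_cast
      rw [← mul_assoc, ← mul_pow]
      norm_num
    rw [e3] at e1
    rw [hf] at e1
    linarith
  obtain ⟨S, _, hS⟩ := hex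
  refine ⟨S, le_trans ?_ hS⟩
  have e1 : Real.exp (-(C1 * tinf f)) ≤ (1 / 2 : ℝ) ^ T.card := by
    have e2 : (1 / 2 : ℝ) ^ T.card = Real.exp (-(Real.log 2 * T.card)) := by
      rw [show -(Real.log 2 * (T.card : ℝ)) = (T.card : ℝ) * (-Real.log 2) by ring,
        Real.exp_nat_mul, Real.exp_neg, Real.exp_log (by norm_num)]
      norm_num
    rw [e2]
    apply Real.exp_le_exp.mpr
    have e3 : (T.card : ℝ) ≤ 2 ^ (D + 4 * K) * tinf f := by
      have e4 : (T.card : ℝ) = 2 ^ (D + 4 * K) * (T.card * (1 / 2 : ℝ) ^ (D + 4 * K)) := by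
        rw [mul_comm (T.card : ℝ), ← mul_assoc, ← mul_pow]
        norm_num
      rw [e4]
      exact mul_le_mul_of_nonneg_left hTcard (by positivity)
    have e5 := mul_le_mul_of_nonneg_left e3 (Real.log_pos (by norm_num : (1 : ℝ) < 2)).le
    rw [hC1]
    linarith
  calc Real.exp (-(C1 + C2) * tinf (ff P))
      = Real.exp (-(C1 * tinf f)) * Real.exp (-(C2 * tinf f)) := by
        rw [← Real.exp_add]
        congr 1
        rw [hf]
        ring
    _ ≤ (1 / 2 : ℝ) ^ T.card * ZZ ∅ G :=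
        mul_le_mul e1 hZ (Real.exp_pos _).le (by positivity)

end Pool.Agent.MP3145b1
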