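import Pool.Agent.Lib.MP_3145b1_co.Spec

set_option autoImplicit false

namespace Pool.Agent.MP3145b1

open Finset

variable {n : ℕ}

/-- Fourier coefficient of a function on the cube `Fin n → Bool` (`true` is the value `-1`). -/
noncomputable def coeff (f : (Fin n → Bool) → ℝ) (S : Finset (Fin n)) : ℝ :=
  (1 / (2 : ℝ) ^ n) * ∑ x : Fin n → Bool, f x * ∏ i ∈ S, (if x i then (-1 : ℝ) else 1)

/-- Total influence. -/
noncomputable def influence (f : (Fin n → Bool) → ℝ) : ℝ :=
  ∑ T : Finset (Fin n), (T.card : ℝ) * coeff f T ^ 2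

/-- The sign `∏ (if a i then -1 else 1)`. -/
noncomputable def sgn (a : Fin n → Bool) (S : Finset (Fin n)) : ℝ :=
  ∏ i ∈ S, (if a i then (-1 : ℝ) else 1)

theorem sgn_sq (a : Fin n → Bool) (S : Finset (Fin n)) : sgn a S ^ 2 = 1 := by
  unfold sgn
  rw [← Finset.prod_pow]
  apply Finset.prod_eq_one
  intro i _
  split_ifs <;> norm_num

theorem sgn_abs (a : Fin n → Bool) (S : Finset (Fin n)) : |sgn a S| = 1 := by
  have := sgn_sq a S
  have h2 : (sgn a S - 1) * (sgn a S + 1) = 0 := by linear_combination this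
  rcases mul_eq_zero.mp h2 with h | h
  · rw [show sgn a S = 1 by linarith]; simp
  · rw [show sgn a S = -1 by linarith]; simp

/-- The points of the cube and the subsets, with origin `a`. -/
def cubeEquiv (a : Fin n → Bool) : Finset (Fin n) ≃ (Fin n → Bool) where
  toFun A := fun i => xor (decide (i ∈ A)) (a i)
  invFun x := univ.filter (fun i => xor (x i) (a i) = true)
  left_inv A := by
    ext i
    simp
  right_inv x := by
    funext i
    cases h1 : x i <;> cases h2 : a i <;> simp [h1, h2]

theorem prod_ind (S A : Finset (Fin n)) :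
    (∏ i ∈ S, (if i ∈ A then (-1 : ℝ) else 1)) = (-1 : ℝ) ^ (S ∩ A).card := by
  rw [Finset.prod_ite, Finset.prod_const_one, mul_one, Finset.prod_const,
    Finset.filter_mem_eq_inter]

theorem coeff_eq (a : Fin n → Bool) (f : (Fin n → Bool) → ℝ) (S : Finset (Fin n)) :
    coeff f S = sgn a S * fc (fun A => f (cubeEquiv a A)) S := by
  unfold coeff fc
  rw [← Equiv.sum_comp (cubeEquiv a)]
  rw [show (1 / (2 : ℝ) ^ n) = (1 / 2 : ℝ) ^ n by rw [one_div_pow]]
  rw [mul_left_comm (sgn a S)]
  congr 1
  rw [Finset.mul_sum]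
  apply Finset.sum_congr rfl
  intro A _
  rw [← prod_ind S A, mul_left_comm]
  congr 1
  unfold sgn
  rw [← Finset.prod_mul_distrib]
  apply Finset.prod_congr rfl
  intro i _
  simp only [cubeEquiv, Equiv.coe_fn_mk]
  by_cases h1 : i ∈ A <;> by_cases h2 : a i = true <;> simp [h1, h2]

theorem coeff_sq (a : Fin n → Bool) (f : (Fin n → Bool) → ℝ) (S : Finset (Fin n)) :
    coeff f S ^ 2 = fc (fun A => f (cubeEquiv a A)) S ^ 2 := by
  rw [coeff_eq a, mul_pow, sgn_sq, one_mul]

theorem coeff_abs (a : Fin n → Bool) (f : (Fin n → Bool) → ℝ) (S : Finset (Fin n)) :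
    |coeff f S| = |fc (fun A => f (cubeEquiv a A)) S| := by
  rw [coeff_eq a, abs_mul, sgn_abs, one_mul]

theorem influence_eq (a : Fin n → Bool) (f : (Fin n → Bool) → ℝ) :
    influence f = tinf (fun A => f (cubeEquiv a A)) := by
  unfold influence tinf
  apply Finset.sum_congr rfl
  intro S _
  rw [coeff_sq a]

/-- The sign `(-1)^{p(x + a)}`, where `p` is the sum over `M ∈ P` of the monomials `∏_{i ∈ M} x_i`
over the field with two elements. -/
noncomputable def polySign (P : Finset (Finset (Fin n))) (a x : Fin n → Bool) : ℝ :=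
  ∏ M ∈ P, (if ∀ i ∈ M, xor (x i) (a i) = true then (-1 : ℝ) else 1)

theorem polySign_eq (P : Finset (Finset (Fin n))) (a : Fin n → Bool) (A : Finset (Fin n)) :
    polySign P a (cubeEquiv a A) = ff P A := by
  unfold polySign ff
  apply Finset.prod_congr rfl
  intro M _
  unfold sg
  have : (∀ i ∈ M, xor (cubeEquiv a A i) (a i) = true) ↔ M ⊆ A := by
    rw [Finset.subset_iff]
    simp [cubeEquiv]
  simp only [this]

end Pool.Agent.MP3145b1
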