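import Pool.Agent.Lib.MP_3145b1_co.Spec

/-!
# MP_3145b1_co: the entropy bound
-/

set_option autoImplicit false

namespace Pool.Agent.MP3145b1

open Finset

private theorem sum_one (hPar : S_Par) {n : ℕ} {f : Finset (Fin n) → ℝ}
    (hf : ∀ A, f A = 1 ∨ f A = -1) : ∑ S : Finset (Fin n), fc f S ^ 2 = 1 := by
  rw [hPar n f]
  have h1 : ∀ A : Finset (Fin n), f A ^ 2 = 1 := by
    intro A
    rcases hf A with h | h <;> rw [h] <;> norm_num
  rw [Finset.sum_congr rfl fun A _ => h1 A, Finset.sum_const, Finset.card_univ, Fintype.card_finset,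
    Fintype.card_fin, nsmul_eq_mul, mul_one]
  push_cast
  rw [← mul_pow]
  norm_num

private theorem swap {n : ℕ} (p : Finset (Fin n) → ℝ) (u : ℝ) :
    ∑ S : Finset (Fin n), u ^ S.card * ∑ U ∈ univ.filter (fun U : Finset (Fin n) => S ⊆ U), p U =
      ∑ U : Finset (Fin n), (1 + u) ^ U.card * p U := by
  have h1 : ∀ S : Finset (Fin n), u ^ S.card *
      ∑ U ∈ univ.filter (fun U : Finset (Fin n) => S ⊆ U), p U =
      ∑ U : Finset (Fin n), if S ⊆ U then u ^ S.card * p U else 0 := by
    intro S
    rw [Finset.mul_sum, Finset.sum_filter]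
  rw [Finset.sum_congr rfl fun S _ => h1 S, Finset.sum_comm]
  refine Finset.sum_congr rfl fun U _ => ?_
  have h2 : ∑ S : Finset (Fin n), (if S ⊆ U then u ^ S.card * p U else 0) =
      ∑ S ∈ U.powerset, u ^ S.card * p U := by
    rw [← Finset.sum_filter]
    refine Finset.sum_congr ?_ fun _ _ => rfl
    ext S
    simp
  rw [h2, ← Finset.sum_mul]
  have h3 := Finset.sum_pow_mul_eq_add_pow u 1 U
  simp only [one_pow, mul_one] at h3
  rw [h3, add_comm]

theorem entB (hPar : S_Par) (hGran : S_Gran) (hJen : S_Jen) : S_EntB := by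
  intro n f hf u hu
  set p : Finset (Fin n) → ℝ := fun S => fc f S ^ 2 with hp
  set q : Finset (Fin n) → ℝ :=
    fun S => ∑ U ∈ univ.filter (fun U : Finset (Fin n) => S ⊆ U), p U with hq
  have hp0 : ∀ S, 0 ≤ p S := fun S => sq_nonneg _
  have hpq : ∀ S, p S ≤ q S := by
    intro S
    refine Finset.single_le_sum (f := p) (fun U _ => hp0 U) ?_
    rw [Finset.mem_filter]
    exact ⟨Finset.mem_univ _, Finset.Subset.refl S⟩
  have hsum : ∑ S, p S = 1 := sum_one hPar hf
  have htinf : tinf f = ∑ S : Finset (Fin n), (S.card : ℝ) * p S := rfl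
  set H : ℝ := ∑ S, p S * Real.log (1 / p S) with hH
  set Dd : ℝ := ∑ S, p S * Real.log (q S / p S) with hDd
  have hlog2 : 0 < Real.log 2 := Real.log_pos one_lt_two
  -- the first estimate
  have key1 : H ≤ Real.log 2 * tinf f + (1 / 2) * H + Dd := by
    have h1 : ∀ S ∈ (univ : Finset (Finset (Fin n))), p S * Real.log (1 / p S) ≤
        Real.log 2 * ((S.card : ℝ) * p S) + (1 / 2) * (p S * Real.log (1 / p S)) +
          p S * Real.log (q S / p S) := by
      intro S _
      rcases (hp0 S).eq_or_lt with h0 | h0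
      · rw [← h0]
        simp
      · have hqp : 0 < q S := lt_of_lt_of_le h0 (hpq S)
        have hfc : fc f S ≠ 0 := by
          intro h2
          have h3 : p S = 0 := by
            show fc f S ^ 2 = 0
            rw [h2]
            norm_num
          exact h0.ne' h3
        have h2 : Real.log |fc f S| ≤ Real.log (2 ^ S.card * q S) :=
          Real.log_le_log (abs_pos.mpr hfc) (hGran n f hf S)
        rw [Real.log_mul (pow_pos two_pos _).ne' hqp.ne', Real.log_pow] at h2
        have h3 : Real.log (p S) = 2 * Real.log |fc f S| := by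
          show Real.log (fc f S ^ 2) = _
          rw [← sq_abs, Real.log_pow]
          norm_num
        rw [one_div, Real.log_inv, Real.log_div hqp.ne' h0.ne']
        have h4 : 0 ≤ p S * ((S.card : ℝ) * Real.log 2 + Real.log (q S) - (1 / 2) * Real.log (p S)) := by
          refine mul_nonneg h0.le ?_
          rw [h3]
          linarith
        set a : ℝ := Real.log (q S)
        set b : ℝ := Real.log (p S)
        have h5 : Real.log 2 * ((S.card : ℝ) * p S) + (1 / 2) * (p S * -b) + p S * (a - b) =
            p S * -b + p S * ((S.card : ℝ) * Real.log 2 + a - (1 / 2) * b) := by ring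
        rw [h5]
        linarith
    have h2 := Finset.sum_le_sum h1
    rw [Finset.sum_add_distrib, Finset.sum_add_distrib, ← Finset.mul_sum, ← Finset.mul_sum] at h2
    exact h2
  -- Jensen
  set w : Finset (Fin n) → ℝ := fun S => if p S = 0 then 1 else q S * u ^ S.card / p S with hw
  have hwpos : ∀ S, 0 < w S := by
    intro S
    show 0 < if p S = 0 then (1 : ℝ) else q S * u ^ S.card / p S
    split_ifs with h
    · exact one_pos
    · have h0 : 0 < p S := lt_of_le_of_ne (hp0 S) (Ne.symm h)
      have hqp : 0 < q S := lt_of_lt_of_le h0 (hpq S)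
      exact div_pos (mul_pos hqp (pow_pos hu _)) h0
  have hJ := hJen (Finset (Fin n)) p w hp0 hsum hwpos
  have hDeq : Dd = ∑ S, p S * Real.log (w S) + Real.log (1 / u) * tinf f := by
    rw [htinf, Finset.mul_sum, ← Finset.sum_add_distrib]
    refine Finset.sum_congr rfl fun S _ => ?_
    rcases (hp0 S).eq_or_lt with h0 | h0
    · rw [← h0]
      simp
    · have hqp : 0 < q S := lt_of_lt_of_le h0 (hpq S)
      have hwS : w S = q S * u ^ S.card / p S := if_neg h0.ne'
      have e1 : Real.log (q S * u ^ S.card / p S) =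
          Real.log (q S) + (S.card : ℝ) * Real.log u - Real.log (p S) := by
        rw [Real.log_div (mul_pos hqp (pow_pos hu _)).ne' h0.ne',
          Real.log_mul hqp.ne' (pow_pos hu _).ne', Real.log_pow]
      have e2 : Real.log (q S / p S) = Real.log (q S) - Real.log (p S) :=
        Real.log_div hqp.ne' h0.ne'
      rw [hwS, e1, e2, one_div, Real.log_inv]
      ring
  have hsw : ∑ S, p S * w S ≤ ∑ S : Finset (Fin n), (1 + u) ^ S.card * p S := by
    rw [← swap p u]
    refine Finset.sum_le_sum fun S _ => ?_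
    rcases (hp0 S).eq_or_lt with h0 | h0
    · rw [← h0, zero_mul]
      exact mul_nonneg (by positivity) (Finset.sum_nonneg fun U _ => hp0 U)
    · have hwS : w S = q S * u ^ S.card / p S := if_neg h0.ne'
      rw [hwS, mul_div_cancel₀ _ h0.ne', mul_comm]
  have hswpos : 0 < ∑ S, p S * w S := by
    have h1 : ∃ S, p S ≠ 0 := by
      by_contra hcon
      push Not at hcon
      rw [Finset.sum_eq_zero fun S _ => hcon S] at hsum
      exact zero_ne_one hsum
    obtain ⟨S, hS⟩ := h1
    have h0 : 0 < p S := lt_of_le_of_ne (hp0 S) (Ne.symm hS)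
    exact Finset.sum_pos' (fun S _ => mul_nonneg (hp0 S) (hwpos S).le)
      ⟨S, Finset.mem_univ _, mul_pos h0 (hwpos S)⟩
  have hlog : Real.log (∑ S, p S * w S) ≤
      Real.log (∑ S : Finset (Fin n), (1 + u) ^ S.card * p S) := Real.log_le_log hswpos hsw
  have h2u : Real.log (2 / u) = Real.log 2 + Real.log (1 / u) := by
    rw [Real.log_div (by norm_num) hu.ne', one_div, Real.log_inv]
    ring
  show H ≤ 2 * Real.log (2 / u) * tinf f +
      2 * Real.log (∑ S : Finset (Fin n), (1 + u) ^ S.card * p S)
  rw [h2u]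
  have e1 : 2 * (Real.log 2 + Real.log (1 / u)) * tinf f =
      2 * (Real.log 2 * tinf f) + 2 * (Real.log (1 / u) * tinf f) := by ring
  rw [e1]
  linarith

end Pool.Agent.MP3145b1
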