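import Pool.Agent.Lib.MP_3145b1_co.Spec

/-!
# MP_3145b1_co: Parseval (`S_Par`)
-/

set_option autoImplicit false

namespace Pool.Agent.MP3145b1

open Finset

private theorem parAux_chi {n : ℕ} (S A : Finset (Fin n)) :
    (-1 : ℝ) ^ (S ∩ A).card = ∏ i ∈ S, if i ∈ A then (-1 : ℝ) else 1 := by
  rw [Finset.prod_ite_mem, Finset.prod_const]

private theorem parAux_orth {n : ℕ} (A B : Finset (Fin n)) :
    ∑ S : Finset (Fin n), (-1 : ℝ) ^ (S ∩ A).card * (-1 : ℝ) ^ (S ∩ B).card =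
      if A = B then (2 : ℝ) ^ n else 0 := by
  have h1 : ∀ S : Finset (Fin n), (-1 : ℝ) ^ (S ∩ A).card * (-1 : ℝ) ^ (S ∩ B).card =
      ∏ i ∈ S, ((if i ∈ A then (-1 : ℝ) else 1) * (if i ∈ B then (-1 : ℝ) else 1)) := by
    intro S
    rw [parAux_chi, parAux_chi, Finset.prod_mul_distrib]
  have h2 : ∑ S : Finset (Fin n), (-1 : ℝ) ^ (S ∩ A).card * (-1 : ℝ) ^ (S ∩ B).card =
      ∏ i : Fin n, (1 + (if i ∈ A then (-1 : ℝ) else 1) * (if i ∈ B then (-1 : ℝ) else 1)) := by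
    rw [Finset.prod_one_add, Finset.powerset_univ]
    exact Finset.sum_congr rfl fun S _ => h1 S
  rw [h2]
  by_cases hAB : A = B
  · subst hAB
    rw [if_pos rfl]
    have h3 : ∀ i ∈ (univ : Finset (Fin n)),
        (1 + (if i ∈ A then (-1 : ℝ) else 1) * (if i ∈ A then (-1 : ℝ) else 1)) = 2 := by
      intro i _
      split_ifs <;> norm_num
    rw [Finset.prod_congr rfl h3, Finset.prod_const, Finset.card_univ, Fintype.card_fin]
  · rw [if_neg hAB]
    obtain ⟨i, hi⟩ : ∃ i, ¬ (i ∈ A ↔ i ∈ B) := by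
      by_contra h
      push Not at h
      exact hAB (Finset.ext h)
    apply Finset.prod_eq_zero (Finset.mem_univ i)
    by_cases hA : i ∈ A
    · have hB : i ∉ B := fun h => hi ⟨fun _ => h, fun _ => hA⟩
      rw [if_pos hA, if_neg hB]
      norm_num
    · have hB : i ∈ B := by
        by_contra h
        exact hi ⟨fun h' => absurd h' hA, fun h' => absurd h' h⟩
      rw [if_neg hA, if_pos hB]
      norm_num

theorem par : S_Par := by
  intro n f
  have h1 : ∀ S : Finset (Fin n), fc f S ^ 2 = (1 / 2 : ℝ) ^ n * (1 / 2 : ℝ) ^ n *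
      ∑ A : Finset (Fin n), ∑ B : Finset (Fin n),
        f A * f B * ((-1 : ℝ) ^ (S ∩ A).card * (-1 : ℝ) ^ (S ∩ B).card) := by
    intro S
    unfold fc
    rw [mul_pow, sq, sq, Finset.sum_mul_sum]
    congr 1
    refine Finset.sum_congr rfl fun A _ => Finset.sum_congr rfl fun B _ => ?_
    ring
  have h2 : ∑ S : Finset (Fin n), fc f S ^ 2 = (1 / 2 : ℝ) ^ n * (1 / 2 : ℝ) ^ n *
      ∑ A : Finset (Fin n), ∑ B : Finset (Fin n), f A * f B *
        ∑ S : Finset (Fin n), (-1 : ℝ) ^ (S ∩ A).card * (-1 : ℝ) ^ (S ∩ B).card := by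
    rw [Finset.sum_congr rfl fun S _ => h1 S, ← Finset.mul_sum]
    congr 1
    rw [Finset.sum_comm]
    refine Finset.sum_congr rfl fun A _ => ?_
    rw [Finset.sum_comm]
    refine Finset.sum_congr rfl fun B _ => ?_
    rw [Finset.mul_sum]
  rw [h2]
  have h3 : ∀ A : Finset (Fin n), ∑ B : Finset (Fin n), f A * f B *
      ∑ S : Finset (Fin n), (-1 : ℝ) ^ (S ∩ A).card * (-1 : ℝ) ^ (S ∩ B).card =
      f A ^ 2 * (2 : ℝ) ^ n := by
    intro A
    rw [Finset.sum_eq_single A]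
    · rw [parAux_orth, if_pos rfl]
      ring
    · intro B _ hB
      rw [parAux_orth, if_neg (fun h => hB h.symm), mul_zero]
    · intro h
      exact absurd (Finset.mem_univ A) h
  rw [Finset.sum_congr rfl fun A _ => h3 A, ← Finset.sum_mul]
  have h4 : (1 / 2 : ℝ) ^ n * (2 : ℝ) ^ n = 1 := by
    rw [← mul_pow]
    norm_num
  calc (1 / 2 : ℝ) ^ n * (1 / 2 : ℝ) ^ n * ((∑ A : Finset (Fin n), f A ^ 2) * (2 : ℝ) ^ n)
      = (1 / 2 : ℝ) ^ n * (∑ A : Finset (Fin n), f A ^ 2) * ((1 / 2 : ℝ) ^ n * (2 : ℝ) ^ n) := by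
        ring
    _ = (1 / 2 : ℝ) ^ n * ∑ A : Finset (Fin n), f A ^ 2 := by rw [h4, mul_one]

end Pool.Agent.MP3145b1
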