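import Pool.Agent.Lib.MP_3145b1_co.Spec

/-!
# MP_3145b1_co, FSub: the sum of the Fourier coefficients over the subsets of a set
-/

set_option autoImplicit false

namespace Pool.Agent.MP3145b1

open Finset

private theorem fsub_sum {n : ℕ} (T A : Finset (Fin n)) :
    ∑ S ∈ T.powerset, (-1 : ℝ) ^ (S ∩ A).card = if A ∈ (Tᶜ).powerset then 2 ^ T.card else 0 := by
  classical
  have h1 : ∀ S : Finset (Fin n), (-1 : ℝ) ^ (S ∩ A).card =
      ∏ i ∈ S, (if i ∈ A then (-1 : ℝ) else 1) := by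
    intro S
    rw [Finset.prod_ite, Finset.prod_const_one, mul_one, Finset.prod_const]
    congr 2
  have h2 : ∑ S ∈ T.powerset, (-1 : ℝ) ^ (S ∩ A).card =
      ∏ i ∈ T, ((if i ∈ A then (-1 : ℝ) else 1) + 1) := by
    rw [Finset.prod_add]
    refine sum_congr rfl (fun S _ => ?_)
    rw [h1 S, prod_const_one, mul_one]
  rw [h2]
  split_ifs with h
  · rw [mem_powerset] at h
    have h3 : ∀ i ∈ T, ((if i ∈ A then (-1 : ℝ) else 1) + 1) = 2 := by
      intro i hi
      have h4 : i ∉ A := fun h5 => (mem_compl.1 (h h5)) hi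
      rw [if_neg h4]
      norm_num
    rw [prod_congr rfl h3, prod_const]
  · rw [mem_powerset, subset_iff] at h
    push Not at h
    obtain ⟨i, hiA, hiT⟩ := h
    rw [mem_compl, not_not] at hiT
    refine prod_eq_zero hiT ?_
    rw [if_pos hiA]
    norm_num

theorem fSub : S_FSub := by
  classical
  intro n f T
  have hT : T.card ≤ n := by
    simpa using card_le_univ T
  have h1 : ∑ S ∈ T.powerset, fc f S =
      (1 / 2 : ℝ) ^ n * ∑ A : Finset (Fin n), f A * ∑ S ∈ T.powerset, (-1 : ℝ) ^ (S ∩ A).card := by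
    unfold fc
    rw [← mul_sum, sum_comm]
    congr 1
    refine sum_congr rfl (fun A _ => ?_)
    rw [mul_sum]
  have h2 : ∑ A : Finset (Fin n), f A * ∑ S ∈ T.powerset, (-1 : ℝ) ^ (S ∩ A).card =
      2 ^ T.card * ∑ A ∈ (Tᶜ).powerset, f A := by
    rw [mul_sum]
    have h3 : ∀ A : Finset (Fin n), f A * ∑ S ∈ T.powerset, (-1 : ℝ) ^ (S ∩ A).card =
        if A ∈ (Tᶜ).powerset then 2 ^ T.card * f A else 0 := by
      intro A
      rw [fsub_sum]
      split_ifs
      · ring
      · ring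
    rw [sum_congr rfl (fun A _ => h3 A), ← sum_filter]
    refine sum_congr ?_ (fun _ _ => rfl)
    ext A
    simp
  rw [h1, h2, ← mul_assoc]
  congr 1
  have h4 : (1 / 2 : ℝ) ^ n = (1 / 2 : ℝ) ^ (n - T.card) * (1 / 2 : ℝ) ^ T.card := by
    rw [← pow_add, Nat.sub_add_cancel hT]
  rw [h4, mul_assoc, ← mul_pow]
  norm_num

end Pool.Agent.MP3145b1
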