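import Pool.Agent.Lib.MP_3145b1_co.Spec

/-!
# MP_3145b1_co, Gran: granularity of derivatives
-/

set_option autoImplicit false

namespace Pool.Agent.MP3145b1

open Finset

private theorem gran_card {n : ℕ} (U A : Finset (Fin n)) (v : Fin n) :
    (-1 : ℝ) ^ (U ∩ symmDiff A {v}).card = (if v ∈ U then -1 else 1) * (-1 : ℝ) ^ (U ∩ A).card := by
  by_cases hU : v ∈ U
  · rw [if_pos hU]
    by_cases hA : v ∈ A
    · have h1 : symmDiff A {v} = A.erase v := by
        ext x
        simp only [mem_symmDiff, mem_singleton, mem_erase]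
        by_cases hx : x = v
        · subst hx
          simp [hA]
        · simp [hx]
      have h2 : U ∩ A = insert v (U ∩ A.erase v) := by
        ext x
        simp only [mem_inter, mem_insert, mem_erase]
        by_cases hx : x = v
        · subst hx
          simp [hA, hU]
        · simp [hx]
      rw [h1, h2, card_insert_of_notMem (by simp)]
      ring
    · have h1 : symmDiff A {v} = insert v A := by
        ext x
        simp only [mem_symmDiff, mem_singleton, mem_insert]
        by_cases hx : x = v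
        · subst hx
          simp [hA]
        · simp [hx]
      have h2 : U ∩ insert v A = insert v (U ∩ A) := by
        ext x
        simp only [mem_inter, mem_insert]
        by_cases hx : x = v
        · subst hx
          simp [hU]
        · simp [hx]
      rw [h1, h2, card_insert_of_notMem (by simp [hA])]
      ring
  · rw [if_neg hU, one_mul]
    have h1 : U ∩ symmDiff A {v} = U ∩ A := by
      ext x
      simp only [mem_inter, mem_symmDiff, mem_singleton]
      by_cases hx : x = v
      · subst hx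
        simp [hU]
      · simp [hx]
    rw [h1]

private theorem gran_flip {n : ℕ} (g : Finset (Fin n) → ℝ) (v : Fin n) :
    ∑ A : Finset (Fin n), g (symmDiff A {v}) = ∑ A : Finset (Fin n), g A :=
  Finset.sum_bijective (fun A : Finset (Fin n) => symmDiff A {v})
    (Function.Involutive.bijective fun A => symmDiff_symmDiff_cancel_right {v} A)
    (fun A => by simp) (fun A _ => rfl)

/-- the signed derivative -/
private noncomputable def gran_D {n : ℕ} (v : Fin n) (g : Finset (Fin n) → ℝ)
    (A : Finset (Fin n)) : ℝ :=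
  (-1 : ℝ) ^ ({v} ∩ A).card * ((g A - g (symmDiff A {v})) / 2)

private theorem gran_fc {n : ℕ} (v : Fin n) (g : Finset (Fin n) → ℝ) (U : Finset (Fin n)) :
    fc (gran_D v g) U = if v ∈ U then 0 else fc g (insert v U) := by
  have h1 : ∑ A : Finset (Fin n), gran_D v g A * (-1 : ℝ) ^ (U ∩ A).card =
      (1 / 2) * (∑ A : Finset (Fin n), (-1 : ℝ) ^ ({v} ∩ A).card * g A * (-1 : ℝ) ^ (U ∩ A).card -
        ∑ A : Finset (Fin n), (-1 : ℝ) ^ ({v} ∩ A).card * g (symmDiff A {v}) *
          (-1 : ℝ) ^ (U ∩ A).card) := by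
    rw [← Finset.sum_sub_distrib, Finset.mul_sum]
    apply Finset.sum_congr rfl
    intro A _
    unfold gran_D
    ring
  have h2 : ∑ A : Finset (Fin n), (-1 : ℝ) ^ ({v} ∩ A).card * g (symmDiff A {v}) *
      (-1 : ℝ) ^ (U ∩ A).card = ∑ A : Finset (Fin n), (-1 : ℝ) ^ ({v} ∩ symmDiff A {v}).card *
        g A * (-1 : ℝ) ^ (U ∩ symmDiff A {v}).card := by
    rw [← gran_flip _ v]
    apply Finset.sum_congr rfl
    intro A _
    rw [symmDiff_symmDiff_cancel_right]
  rw [fc, h1, h2]
  by_cases hU : v ∈ U
  · rw [if_pos hU]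
    have h3 : ∑ A : Finset (Fin n), (-1 : ℝ) ^ ({v} ∩ symmDiff A {v}).card *
        g A * (-1 : ℝ) ^ (U ∩ symmDiff A {v}).card =
        ∑ A : Finset (Fin n), (-1 : ℝ) ^ ({v} ∩ A).card * g A * (-1 : ℝ) ^ (U ∩ A).card := by
      apply Finset.sum_congr rfl
      intro A _
      rw [gran_card, gran_card, if_pos (mem_singleton_self v), if_pos hU]
      ring
    rw [h3]
    ring
  · rw [if_neg hU, fc]
    have h3 : ∑ A : Finset (Fin n), (-1 : ℝ) ^ ({v} ∩ symmDiff A {v}).card *
        g A * (-1 : ℝ) ^ (U ∩ symmDiff A {v}).card =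
        -∑ A : Finset (Fin n), (-1 : ℝ) ^ ({v} ∩ A).card * g A * (-1 : ℝ) ^ (U ∩ A).card := by
      rw [← Finset.sum_neg_distrib]
      apply Finset.sum_congr rfl
      intro A _
      rw [gran_card, gran_card, if_pos (mem_singleton_self v), if_neg hU]
      ring
    have h4 : ∑ A : Finset (Fin n), (-1 : ℝ) ^ ({v} ∩ A).card * g A * (-1 : ℝ) ^ (U ∩ A).card =
        ∑ A : Finset (Fin n), g A * (-1 : ℝ) ^ (insert v U ∩ A).card := by
      apply Finset.sum_congr rfl
      intro A _
      have h5 : insert v U ∩ A = ({v} ∩ A) ∪ (U ∩ A) := by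
        rw [← Finset.union_inter_distrib_right, ← Finset.insert_eq]
      have h6 : Disjoint ({v} ∩ A) (U ∩ A) := by
        rw [Finset.disjoint_left]
        intro x hx hx'
        simp only [mem_inter, mem_singleton] at hx hx'
        exact hU (hx.1 ▸ hx'.1)
      rw [h5, Finset.card_union_of_disjoint h6, pow_add]
      ring
    rw [h3, h4]
    ring

private theorem gran_ex {n : ℕ} (f : Finset (Fin n) → ℝ) (hf : ∀ A, f A = 1 ∨ f A = -1)
    (S : Finset (Fin n)) : ∃ g : Finset (Fin n) → ℝ, (∀ A, ∃ z : ℤ, (2 : ℝ) ^ S.card * g A = z) ∧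
      ∀ U, fc g U = if Disjoint U S then fc f (S ∪ U) else 0 := by
  induction S using Finset.induction_on with
  | empty =>
    refine ⟨f, fun A => ?_, fun U => ?_⟩
    · rcases hf A with h | h
      · exact ⟨1, by simp [h]⟩
      · exact ⟨-1, by simp [h]⟩
    · simp
  | insert v S hv ih =>
    obtain ⟨g, hg, hU⟩ := ih
    refine ⟨gran_D v g, fun A => ?_, fun U => ?_⟩
    · obtain ⟨z1, h1⟩ := hg A
      obtain ⟨z2, h2⟩ := hg (symmDiff A {v})
      refine ⟨(-1) ^ ({v} ∩ A).card * (z1 - z2), ?_⟩
      rw [card_insert_of_notMem hv]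
      unfold gran_D
      push_cast
      rw [← h1, ← h2]
      ring
    · rw [gran_fc]
      by_cases h1 : v ∈ U
      · rw [if_pos h1, if_neg]
        rw [Finset.disjoint_left]
        push Not
        exact ⟨v, h1, mem_insert_self v S⟩
      · rw [if_neg h1, hU]
        have h2 : S ∪ insert v U = insert v S ∪ U := by
          ext x
          simp only [mem_union, mem_insert]
          tauto
        rw [h2]
        have h3 : Disjoint (insert v U) S ↔ Disjoint U (insert v S) := by
          rw [Finset.disjoint_insert_left, Finset.disjoint_insert_right]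
          exact ⟨fun h => ⟨h1, h.2⟩, fun h => ⟨hv, h.2⟩⟩
        simp only [h3]

theorem gran (hPar : S_Par) : S_Gran := by
  intro n f hf S
  obtain ⟨g, hg, hU⟩ := gran_ex f hf S
  have h0 : fc f S = (1 / 2 : ℝ) ^ n * ∑ A : Finset (Fin n), g A := by
    have h1 := hU ∅
    rw [if_pos (Finset.disjoint_empty_left S), Finset.union_empty] at h1
    rw [← h1, fc]
    simp
  have hp : (0 : ℝ) < (1 / 2 : ℝ) ^ n := by positivity
  have hN : (0 : ℝ) < (2 : ℝ) ^ S.card := by positivity
  have hb : ∀ A, |g A| ≤ 2 ^ S.card * g A ^ 2 := by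
    intro A
    obtain ⟨z, hz⟩ := hg A
    have h1 : |(z : ℝ)| ≤ (z : ℝ) ^ 2 := by
      have h2 : |z| ≤ z ^ 2 := by
        rcases eq_or_ne z 0 with h | h
        · subst h
          simp
        · have h3 : 1 ≤ |z| := Int.one_le_abs h
          calc |z| = |z| * 1 := (mul_one _).symm
            _ ≤ |z| * |z| := mul_le_mul_of_nonneg_left h3 (abs_nonneg z)
            _ = z ^ 2 := by rw [← sq, sq_abs]
      exact_mod_cast h2
    rw [← hz, abs_mul, abs_of_pos hN, mul_pow] at h1
    have h3 : (2 : ℝ) ^ S.card * |g A| ≤ 2 ^ S.card * (2 ^ S.card * g A ^ 2) := by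
      rw [← mul_assoc, ← sq]
      exact h1
    exact le_of_mul_le_mul_left h3 hN
  have hs : ∑ U : Finset (Fin n), fc g U ^ 2 =
      ∑ U ∈ univ.filter (fun U : Finset (Fin n) => S ⊆ U), fc f U ^ 2 := by
    have h1 : ∀ U : Finset (Fin n), fc g U ^ 2 = if Disjoint U S then fc f (S ∪ U) ^ 2 else 0 := by
      intro U
      rw [hU]
      split_ifs
      · rfl
      · norm_num
    rw [Finset.sum_congr rfl fun U _ => h1 U, ← Finset.sum_filter]
    apply Finset.sum_nbij' (fun U => S ∪ U) (fun U => U \ S)
    · intro U hU'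
      simp
    · intro U hU'
      simp only [mem_filter, mem_univ, true_and]
      exact Finset.sdiff_disjoint
    · intro U hU'
      simp only [mem_filter, mem_univ, true_and] at hU'
      rw [Finset.union_sdiff_left]
      exact Finset.sdiff_eq_self_of_disjoint hU'
    · intro U hU'
      simp only [mem_filter, mem_univ, true_and] at hU'
      exact Finset.union_sdiff_of_subset hU'
    · intro U _
      rfl
  rw [← hs, hPar n g, h0, abs_mul, abs_of_pos hp]
  calc (1 / 2 : ℝ) ^ n * |∑ A : Finset (Fin n), g A| ≤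
      (1 / 2 : ℝ) ^ n * ∑ A : Finset (Fin n), (2 ^ S.card * g A ^ 2) := by
        apply mul_le_mul_of_nonneg_left _ hp.le
        exact (Finset.abs_sum_le_sum_abs _ _).trans (Finset.sum_le_sum fun A _ => hb A)
    _ = 2 ^ S.card * ((1 / 2 : ℝ) ^ n * ∑ A : Finset (Fin n), g A ^ 2) := by
        rw [← Finset.mul_sum]
        ring

end Pool.Agent.MP3145b1
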