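import Pool.Agent.Lib.MP_3145b1_co.Spec

/-!
# MP_3145b1_co: total influence as a sum of influences
-/

set_option autoImplicit false

namespace Pool.Agent.MP3145b1

open Finset

private theorem inf1_sgn {n : ℕ} (S A : Finset (Fin n)) (v : Fin n) :
    (-1 : ℝ) ^ (S ∩ symmDiff A {v}).card = (if v ∈ S then -1 else 1) * (-1 : ℝ) ^ (S ∩ A).card := by
  by_cases hS : v ∈ S
  · rw [if_pos hS]
    by_cases hA : v ∈ A
    · have h1 : S ∩ A = insert v (S ∩ symmDiff A {v}) := by
        ext x
        rw [mem_insert, mem_inter, mem_inter, Finset.mem_symmDiff, mem_singleton]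
        by_cases hx : x = v
        · subst hx
          simp [hS, hA]
        · simp [hx]
      have hn : v ∉ S ∩ symmDiff A {v} := by
        rw [mem_inter, Finset.mem_symmDiff, mem_singleton]
        simp [hA]
      rw [h1, card_insert_of_notMem hn, pow_succ]
      ring
    · have h1 : S ∩ symmDiff A {v} = insert v (S ∩ A) := by
        ext x
        rw [mem_insert, mem_inter, mem_inter, Finset.mem_symmDiff, mem_singleton]
        by_cases hx : x = v
        · subst hx
          simp [hS, hA]
        · simp [hx]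
      have hn : v ∉ S ∩ A := by
        rw [mem_inter]
        simp [hA]
      rw [h1, card_insert_of_notMem hn, pow_succ]
      ring
  · have h1 : S ∩ symmDiff A {v} = S ∩ A := by
      ext x
      rw [mem_inter, mem_inter, Finset.mem_symmDiff, mem_singleton]
      by_cases hx : x = v
      · subst hx
        simp [hS]
      · simp [hx]
    rw [if_neg hS, one_mul, h1]

private theorem inf1_sum {n : ℕ} (f : Finset (Fin n) → ℝ) (S : Finset (Fin n)) (v : Fin n) :
    ∑ A : Finset (Fin n), f (symmDiff A {v}) * (-1 : ℝ) ^ (S ∩ A).card =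
      (if v ∈ S then -1 else 1) * ∑ A : Finset (Fin n), f A * (-1 : ℝ) ^ (S ∩ A).card := by
  have hinv : Function.Involutive (fun A : Finset (Fin n) => symmDiff A {v}) := by
    intro A
    exact symmDiff_symmDiff_cancel_right _ _
  rw [Finset.mul_sum]
  refine Fintype.sum_equiv (Function.Involutive.toPerm _ hinv) _ _ ?_
  intro A
  change _ = _ * (f (symmDiff A {v}) * (-1 : ℝ) ^ (S ∩ symmDiff A {v}).card)
  rw [inf1_sgn S A v]
  by_cases hS : v ∈ S
  · rw [if_pos hS]; ring
  · rw [if_neg hS]; ring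

private theorem inf1_fc {n : ℕ} (f : Finset (Fin n) → ℝ) (S : Finset (Fin n)) (v : Fin n) :
    fc (fun A => (f A - f (symmDiff A {v})) / 2) S = if v ∈ S then fc f S else 0 := by
  have h1 : ∑ A : Finset (Fin n), (f A - f (symmDiff A {v})) / 2 * (-1 : ℝ) ^ (S ∩ A).card =
      (∑ A : Finset (Fin n), f A * (-1 : ℝ) ^ (S ∩ A).card -
        ∑ A : Finset (Fin n), f (symmDiff A {v}) * (-1 : ℝ) ^ (S ∩ A).card) / 2 := by
    rw [← Finset.sum_sub_distrib, Finset.sum_div]
    apply Finset.sum_congr rfl
    intro A _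
    ring
  unfold fc
  rw [h1, inf1_sum]
  by_cases hS : v ∈ S
  · rw [if_pos hS, if_pos hS]; ring
  · rw [if_neg hS, if_neg hS]; ring

private theorem inf1_one (hPar : S_Par) {n : ℕ} (f : Finset (Fin n) → ℝ)
    (hf : ∀ A, f A = 1 ∨ f A = -1) (v : Fin n) :
    inf1 f v = ∑ S : Finset (Fin n), if v ∈ S then fc f S ^ 2 else 0 := by
  have h1 := hPar n (fun A => (f A - f (symmDiff A {v})) / 2)
  have h2 : ∑ S : Finset (Fin n), fc (fun A => (f A - f (symmDiff A {v})) / 2) S ^ 2 =
      ∑ S : Finset (Fin n), if v ∈ S then fc f S ^ 2 else 0 := by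
    apply Finset.sum_congr rfl
    intro S _
    rw [inf1_fc]
    by_cases hS : v ∈ S
    · rw [if_pos hS, if_pos hS]
    · rw [if_neg hS, if_neg hS]; ring
  have h3 : ∑ A : Finset (Fin n), ((f A - f (symmDiff A {v})) / 2) ^ 2 =
      ((univ.filter fun A : Finset (Fin n) => f A ≠ f (symmDiff A {v})).card : ℝ) := by
    rw [Finset.card_filter, Nat.cast_sum]
    apply Finset.sum_congr rfl
    intro A _
    rcases hf A with h | h <;> rcases hf (symmDiff A {v}) with h' | h' <;> rw [h, h'] <;> norm_num
  rw [← h2, h1, h3]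
  rfl

theorem inf1E : S_Par → S_Inf1 := by
  intro hPar n f hf
  have h1 : ∑ v : Fin n, inf1 f v =
      ∑ v : Fin n, ∑ S : Finset (Fin n), if v ∈ S then fc f S ^ 2 else 0 :=
    Finset.sum_congr rfl fun v _ => inf1_one hPar f hf v
  rw [h1, Finset.sum_comm]
  unfold tinf
  apply Finset.sum_congr rfl
  intro S _
  rw [Finset.sum_ite_mem, Finset.univ_inter, Finset.sum_const, nsmul_eq_mul]

end Pool.Agent.MP3145b1
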