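import Pool.Agent.Lib.MP_3145b1_co.Spec

/-!
# MP_3145b1_co, InfL: lower bound for the influences
-/

set_option autoImplicit false

namespace Pool.Agent.MP3145b1

open Finset

variable {n : ℕ}

private theorem infL_sg (M A : Finset (Fin n)) (v : Fin n) :
    sg M A * sg M (symmDiff A {v}) = if v ∈ M ∧ M.erase v ⊆ A then -1 else 1 := by
  unfold sg
  by_cases hv : v ∈ M
  · by_cases hA : v ∈ A
    · have h1 : ¬ M ⊆ symmDiff A {v} := by
        intro h
        have := h hv
        simp only [mem_symmDiff, mem_singleton] at this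
        tauto
      have h2 : M ⊆ A ↔ M.erase v ⊆ A := by
        constructor
        · exact fun h x hx => h (mem_of_mem_erase hx)
        · intro h x hx
          by_cases hxv : x = v
          · subst hxv
            exact hA
          · exact h (mem_erase.2 ⟨hxv, hx⟩)
      rw [if_neg h1, mul_one]
      by_cases h3 : M.erase v ⊆ A
      · rw [if_pos (h2.2 h3), if_pos ⟨hv, h3⟩]
      · rw [if_neg (fun h => h3 (h2.1 h)), if_neg (fun h => h3 h.2)]
    · have h1 : ¬ M ⊆ A := fun h => hA (h hv)
      have h2 : M ⊆ symmDiff A {v} ↔ M.erase v ⊆ A := by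
        constructor
        · intro h x hx
          have h3 := h (mem_of_mem_erase hx)
          have h4 := ne_of_mem_erase hx
          simp only [mem_symmDiff, mem_singleton] at h3
          tauto
        · intro h x hx
          simp only [mem_symmDiff, mem_singleton]
          by_cases hxv : x = v
          · subst hxv
            exact Or.inr ⟨rfl, hA⟩
          · exact Or.inl ⟨h (mem_erase.2 ⟨hxv, hx⟩), hxv⟩
      rw [if_neg h1, one_mul]
      by_cases h3 : M.erase v ⊆ A
      · rw [if_pos (h2.2 h3), if_pos ⟨hv, h3⟩]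
      · rw [if_neg (fun h => h3 (h2.1 h)), if_neg (fun h => h3 h.2)]
  · have h1 : M ⊆ symmDiff A {v} ↔ M ⊆ A := by
      constructor
      · intro h x hx
        have h3 := h hx
        have h4 : x ≠ v := by
          rintro rfl
          exact hv hx
        simp only [mem_symmDiff, mem_singleton] at h3
        tauto
      · intro h x hx
        have h4 : x ≠ v := by
          rintro rfl
          exact hv hx
        simp only [mem_symmDiff, mem_singleton]
        exact Or.inl ⟨h hx, h4⟩
    rw [if_neg (fun h : v ∈ M ∧ M.erase v ⊆ A => hv h.1)]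
    by_cases h3 : M ⊆ A
    · rw [if_pos h3, if_pos (h1.2 h3)]
      norm_num
    · rw [if_neg h3, if_neg (fun h => h3 (h1.1 h))]
      norm_num

private theorem infL_one (P : Finset (Finset (Fin n))) (A : Finset (Fin n)) :
    ff P A = 1 ∨ ff P A = -1 := by
  classical
  unfold ff
  induction P using Finset.induction_on with
  | empty => simp
  | insert M P hM ih =>
    rw [prod_insert hM]
    have h1 : sg M A = 1 ∨ sg M A = -1 := by
      unfold sg
      split_ifs
      · exact Or.inr rfl
      · exact Or.inl rfl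
    rcases h1 with h1 | h1 <;> rcases ih with h2 | h2 <;> rw [h1, h2] <;> norm_num

private theorem infL_ne (P : Finset (Finset (Fin n))) (A : Finset (Fin n)) (v : Fin n) :
    ff P A ≠ ff P (symmDiff A {v}) ↔
      Odd (P.filter (fun M => v ∈ M ∧ M.erase v ⊆ A)).card := by
  have h1 : ff P A * ff P (symmDiff A {v}) =
      (-1 : ℝ) ^ (P.filter (fun M => v ∈ M ∧ M.erase v ⊆ A)).card := by
    unfold ff
    rw [← prod_mul_distrib, prod_congr rfl fun M _ => infL_sg M A v, prod_ite, prod_const,
      prod_const_one, mul_one]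
  constructor
  · intro h
    by_contra h2
    rw [Nat.not_odd_iff_even] at h2
    rw [h2.neg_one_pow] at h1
    rcases infL_one P A with h3 | h3 <;> rcases infL_one P (symmDiff A {v}) with h4 | h4
    · exact h (by rw [h3, h4])
    · rw [h3, h4] at h1
      norm_num at h1
    · rw [h3, h4] at h1
      norm_num at h1
    · exact h (by rw [h3, h4])
  · intro h h2
    rw [h.neg_one_pow, ← h2] at h1
    have := mul_self_nonneg (ff P A)
    linarith

private theorem infL_inj (v : Fin n) (P : Finset (Finset (Fin n))) :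
    Set.InjOn (fun M : Finset (Fin n) => M.erase v) (P.filter (fun M => v ∈ M)) := by
  intro M hM M' hM' h
  simp only [coe_filter, Set.mem_setOf_eq] at hM hM'
  dsimp only at h
  rw [← insert_erase hM.2, h, insert_erase hM'.2]

theorem infL (hOdd : S_OddP) (hTail : S_Tail) : S_InfL := by
  intro n d K D P hHR hK hdD hKD M₁ hM₁ v hv
  classical
  set s := max M₁.card D with hs
  have hsM : M₁.card ≤ s := le_max_left _ _
  have hsD : D ≤ s := le_max_right _ _
  set P' := P.filter (fun M => v ∈ M) with hP'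
  set Q := P'.image (fun M => M.erase v) with hQ
  have hinj := infL_inj v P
  have hcard : ∀ M ∈ P', (M.erase v).card + 1 = M.card := fun M hM =>
    card_erase_add_one (mem_filter.1 hM).2
  -- the count
  have hcount : ∀ A : Finset (Fin n), (P.filter (fun M => v ∈ M ∧ M.erase v ⊆ A)).card =
      (Q.filter (fun L => L ⊆ A)).card := by
    intro A
    rw [hQ, filter_image, card_image_of_injOn (hinj.mono (by
      intro M hM
      simp only [coe_filter, Set.mem_setOf_eq] at hM ⊢
      exact mem_filter.1 hM.1)), hP', filter_filter]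
  have hinf : inf1 (ff P) v = (1 / 2 : ℝ) ^ n *
      ((univ.filter fun A : Finset (Fin n) => Odd (Q.filter (fun L => L ⊆ A)).card).card : ℝ) := by
    unfold inf1
    congr 3
    ext A
    rw [mem_filter, mem_filter, infL_ne, hcount]
  -- the greatest small element
  obtain ⟨N, hN, hNmax⟩ := exists_max_image (Q.filter (fun L => L.card ≤ s - 1)) card
    ⟨M₁.erase v, mem_filter.2 ⟨mem_image_of_mem _ (mem_filter.2 ⟨hM₁, hv⟩), by
      have := hcard M₁ (mem_filter.2 ⟨hM₁, hv⟩)
      omega⟩⟩
  rw [mem_filter] at hN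
  have hbig : (Q.filter (fun L => s - 1 < L.card ∧ L.card ≤ 4 * (s + 1) - 1)).card ≤ 4 * K := by
    have h1 : (Q.filter (fun L => s - 1 < L.card ∧ L.card ≤ 4 * (s + 1) - 1)).card ≤
        (P.filter (fun M => v ∈ M ∧ s + 1 ≤ M.card ∧ M.card ≤ 4 * (s + 1))).card := by
      rw [hQ, filter_image]
      refine card_image_le.trans (card_le_card ?_)
      intro M hM
      rw [mem_filter] at hM
      have h2 := hcard M hM.1
      rw [mem_filter]
      exact ⟨(mem_filter.1 hM.1).1, (mem_filter.1 hM.1).2, by omega, by omega⟩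
    have h2 := hHR v (s + 1) (by omega)
    have h3 : ((P.filter (fun M => v ∈ M ∧ s + 1 ≤ M.card ∧ M.card ≤ 4 * (s + 1))).card : ℝ) *
        (1 / 4) ≤ ∑ M ∈ P.filter (fun M => v ∈ M ∧ s + 1 ≤ M.card), ((s + 1 : ℕ) : ℝ) / M.card := by
      rw [← nsmul_eq_mul, ← sum_const]
      refine (sum_le_sum (g := fun M => ((s + 1 : ℕ) : ℝ) / M.card) ?_).trans
        (sum_le_sum_of_subset_of_nonneg ?_ fun M _ _ => by positivity)
      · intro M hM
        rw [mem_filter] at hM
        have h4 : (0 : ℝ) < M.card := by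
          have : 0 < M.card := by omega
          exact_mod_cast this
        rw [le_div_iff₀ h4]
        have h5 : (M.card : ℝ) ≤ ((4 * (s + 1) : ℕ) : ℝ) := by exact_mod_cast hM.2.2.2
        push_cast at h5 ⊢
        linarith
      · intro M hM
        rw [mem_filter] at hM ⊢
        exact ⟨hM.1, hM.2.1, hM.2.2.1⟩
    have h4 : ((P.filter (fun M => v ∈ M ∧ s + 1 ≤ M.card ∧ M.card ≤ 4 * (s + 1))).card : ℝ) ≤
        ((4 * K : ℕ) : ℝ) := by
      push_cast
      linarith
    exact h1.trans (by exact_mod_cast h4)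
  have hpow : ∀ a b : ℕ, a ≤ b → (1 / 2 : ℝ) ^ b ≤ (1 / 2 : ℝ) ^ a := fun a b hab =>
    pow_le_pow_of_le_one (by norm_num) (by norm_num) hab
  have htail : ∑ L ∈ Q.filter (fun L => 4 * (s + 1) - 1 < L.card), (1 / 2 : ℝ) ^ L.card ≤
      (1 / 2 : ℝ) ^ (N.card + 4 * K + 1) := by
    have h1 : ∑ L ∈ Q.filter (fun L => 4 * (s + 1) - 1 < L.card), (1 / 2 : ℝ) ^ L.card ≤
        ∑ M ∈ P.filter (fun M => v ∈ M ∧ 4 * s + 5 ≤ M.card), 2 * (1 / 2 : ℝ) ^ M.card := by
      rw [hQ, filter_image, sum_image (fun M hM M' hM' h => hinj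
        (by simpa using mem_filter.1 (mem_filter.1 hM).1)
        (by simpa using mem_filter.1 (mem_filter.1 hM').1) h)]
      refine (sum_le_sum (g := fun M => 2 * (1 / 2 : ℝ) ^ M.card) ?_).trans
        (sum_le_sum_of_subset_of_nonneg ?_ fun M _ _ => by positivity)
      · intro M hM
        rw [mem_filter] at hM
        rw [← hcard M hM.1, pow_succ]
        linarith
      · intro M hM
        rw [mem_filter] at hM
        have h2 := hcard M hM.1
        rw [mem_filter]
        exact ⟨(mem_filter.1 hM.1).1, (mem_filter.1 hM.1).2, by omega⟩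
    rw [← mul_sum] at h1
    have h2 := hTail n d K P hHR v (4 * s + 5) (by omega)
    have h3 : (K : ℝ) ≤ (2 : ℝ) ^ K := by
      have : K < 2 ^ K := Nat.lt_two_pow_self
      exact_mod_cast this.le
    calc ∑ L ∈ Q.filter (fun L => 4 * (s + 1) - 1 < L.card), (1 / 2 : ℝ) ^ L.card
        ≤ 2 * ((2 : ℝ) ^ K * (1 / 2 : ℝ) ^ (4 * s + 5)) := by
          refine h1.trans (mul_le_mul_of_nonneg_left (h2.trans ?_) (by norm_num))
          exact mul_le_mul_of_nonneg_right h3 (by positivity)
      _ = (1 / 2 : ℝ) ^ (4 * s + 4 - K) := by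
          have h4 : 4 * s + 5 = (4 * s + 4 - K) + (K + 1) := by omega
          rw [h4, pow_add, pow_succ]
          have h5 : (2 : ℝ) ^ K * (1 / 2 : ℝ) ^ K = 1 := by
            rw [← mul_pow]
            norm_num
          have h6 : (4 * s + 4 - K + (K + 1) - (K + 1)) = 4 * s + 4 - K := by omega
          calc 2 * ((2 : ℝ) ^ K * ((1 / 2 : ℝ) ^ (4 * s + 4 - K) * ((1 / 2 : ℝ) ^ K * (1 / 2)))) =
              ((2 : ℝ) ^ K * (1 / 2 : ℝ) ^ K) * (1 / 2 : ℝ) ^ (4 * s + 4 - K) := by ring
            _ = (1 / 2 : ℝ) ^ (4 * s + 4 - K) := by rw [h5, one_mul]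
      _ ≤ (1 / 2 : ℝ) ^ (N.card + 4 * K + 1) := hpow _ _ (by omega)
  have hfin := hOdd n Q N (s - 1) (4 * (s + 1) - 1) (4 * K) hN.1 hN.2 (by omega)
    (fun L hL hLs => hNmax L (mem_filter.2 ⟨hL, hLs⟩)) hbig htail
  rw [hinf]
  have h2n : (1 / 2 : ℝ) ^ n * 2 ^ n = 1 := by
    rw [← mul_pow]
    norm_num
  calc (1 / 2 : ℝ) ^ (s + 4 * K) ≤ (1 / 2 : ℝ) ^ (N.card + 4 * K + 1) := hpow _ _ (by omega)
    _ = (1 / 2 : ℝ) ^ n * (2 ^ n * (1 / 2 : ℝ) ^ (N.card + 4 * K + 1)) := by
        rw [← mul_assoc, h2n, one_mul]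
    _ ≤ _ := mul_le_mul_of_nonneg_left hfin (by positivity)

end Pool.Agent.MP3145b1
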