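import Pool.Agent.Lib.MP_3145b1_co.Spec

set_option autoImplicit false

namespace Pool.Agent.MP3145b1

open Finset

variable {n : ℕ}

private noncomputable def BB (W : Finset (Fin n)) (F : Finset (Finset (Fin n))) : ℝ :=
  Real.exp (3 * ∑ M ∈ F, ((M ∩ W).card : ℝ) / M.card)

private theorem BB_pos (W : Finset (Fin n)) (F : Finset (Finset (Fin n))) : 0 < BB W F :=
  Real.exp_pos _

private def Good (F : Finset (Finset (Fin n))) : Prop :=
  (∀ M ∈ F, 12 ≤ M.card) ∧
    ∀ v : Fin n, ∑ M ∈ F.filter (fun M => v ∈ M), 1 / (M.card : ℝ) ≤ 1 / 20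

private theorem good_sub {F G : Finset (Finset (Fin n))} (hG : G ⊆ F) (h : Good F) : Good G := by
  refine ⟨fun M hM => h.1 M (hG hM), fun v => ?_⟩
  refine le_trans (Finset.sum_le_sum_of_subset_of_nonneg (Finset.filter_subset_filter _ hG) ?_)
    (h.2 v)
  intro i _ _
  positivity

private theorem BB_le {F : Finset (Finset (Fin n))} (h : Good F) (X : Finset (Fin n)) :
    BB X F ≤ (6 / 5 : ℝ) ^ X.card := by
  have h1 : ∑ M ∈ F, ((M ∩ X).card : ℝ) / M.card ≤ X.card * (1 / 20 : ℝ) := by
    have e1 : ∀ M ∈ F, ((M ∩ X).card : ℝ) / M.card =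
        ∑ v ∈ X, if v ∈ M then 1 / (M.card : ℝ) else 0 := by
      intro M _
      rw [← Finset.sum_filter, Finset.sum_const, nsmul_eq_mul, Finset.filter_mem_eq_inter,
        Finset.inter_comm M X]
      ring
    rw [Finset.sum_congr rfl e1, Finset.sum_comm]
    calc ∑ v ∈ X, ∑ M ∈ F, (if v ∈ M then 1 / (M.card : ℝ) else 0)
        ≤ ∑ _v ∈ X, (1 / 20 : ℝ) := by
          apply Finset.sum_le_sum
          intro v _
          rw [← Finset.sum_filter]
          exact h.2 v
      _ = X.card * (1 / 20 : ℝ) := by rw [Finset.sum_const, nsmul_eq_mul]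
  unfold BB
  have h2 : Real.exp (3 / 20) ≤ 6 / 5 := by
    have h3 := Real.exp_bound_div_one_sub_of_interval (x := 3 / 20) (by norm_num) (by norm_num)
    norm_num at h3
    have h4 : Real.exp (3 / 20) ≤ 20 / 17 := h3
    linarith
  calc Real.exp (3 * ∑ M ∈ F, ((M ∩ X).card : ℝ) / M.card)
      ≤ Real.exp (X.card * (3 / 20)) := by
        apply Real.exp_le_exp.mpr
        linarith
    _ = Real.exp (3 / 20) ^ X.card := by rw [Real.exp_nat_mul]
    _ ≤ (6 / 5 : ℝ) ^ X.card := by
        gcongr

private theorem BB_union (W X : Finset (Fin n)) (F : Finset (Finset (Fin n))) :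
    BB (W ∪ X) F ≤ BB W F * BB (X \ W) F := by
  unfold BB
  rw [← Real.exp_add, ← mul_add, ← Finset.sum_add_distrib]
  apply Real.exp_le_exp.mpr
  apply mul_le_mul_of_nonneg_left _ (by norm_num)
  apply Finset.sum_le_sum
  intro M _
  rw [← add_div]
  apply div_le_div_of_nonneg_right _ (by positivity)
  have : (M ∩ (W ∪ X)).card ≤ (M ∩ W).card + (M ∩ (X \ W)).card := by
    refine le_trans (Finset.card_le_card ?_) (Finset.card_union_le _ _)
    intro v hv
    simp only [Finset.mem_inter, Finset.mem_union, Finset.mem_sdiff] at hv ⊢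
    tauto
  exact_mod_cast this

theorem lll (hI : S_ZIns) (hDj : S_ZDisj) (hN : S_Num) : S_LLL := by
  intro n F h12 hread
  have key : ∀ N : ℕ, ∀ F : Finset (Finset (Fin n)), F.card = N → Good F →
      0 < ZZ ∅ F ∧ ∀ W : Finset (Fin n), |ZZ W F| ≤ BB W F * ZZ ∅ F := by
    intro N
    induction N with
    | zero =>
      intro F hF _
      rw [Finset.card_eq_zero] at hF
      subst hF
      have h1 : ∀ W : Finset (Fin n), ZZ W (∅ : Finset (Finset (Fin n))) = 1 := by
        intro W
        simp [ZZ]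
      refine ⟨by rw [h1]; norm_num, fun W => ?_⟩
      rw [h1, h1, BB]
      simp
    | succ N ih =>
      intro F hF hgood
      have hstep : ∀ M ∈ F, 0 < ZZ ∅ (F.erase M) ∧
          (1 - 2 * (3 / 5 : ℝ) ^ M.card) * ZZ ∅ (F.erase M) ≤ ZZ ∅ F := by
        intro M hM
        have hG : Good (F.erase M) := good_sub (Finset.erase_subset _ _) hgood
        obtain ⟨hp, hW⟩ := ih (F.erase M) (by rw [Finset.card_erase_of_mem hM, hF]; simp) hG
        refine ⟨hp, ?_⟩
        have e1 := hI n ∅ M (F.erase M) (Finset.notMem_erase _ _)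
        rw [Finset.insert_erase hM, Finset.sdiff_empty, Finset.empty_union] at e1
        rw [e1]
        have e2 : ZZ M (F.erase M) ≤ (6 / 5 : ℝ) ^ M.card * ZZ ∅ (F.erase M) :=
          le_trans (le_abs_self _) (le_trans (hW M)
            (mul_le_mul_of_nonneg_right (BB_le hG M) hp.le))
        have e3 : (3 / 5 : ℝ) ^ M.card = (1 / 2 : ℝ) ^ M.card * (6 / 5 : ℝ) ^ M.card := by
          rw [← mul_pow]
          norm_num
        rw [e3]
        have e4 : 0 ≤ 2 * (1 / 2 : ℝ) ^ M.card := by positivity
        have e5 := mul_le_mul_of_nonneg_left e2 e4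
        nlinarith
      have hne : F.Nonempty := by
        rw [← Finset.card_pos, hF]
        omega
      have hpos : 0 < ZZ ∅ F := by
        obtain ⟨M, hM⟩ := hne
        obtain ⟨hp, h2⟩ := hstep M hM
        have h3 := hgood.1 M hM
        have h4 : (3 / 5 : ℝ) ^ M.card ≤ 1 / 4 := by
          calc (3 / 5 : ℝ) ^ M.card ≤ (3 / 5 : ℝ) ^ 12 :=
                pow_le_pow_of_le_one (by norm_num) (by norm_num) h3
            _ ≤ 1 / 4 := by norm_num
        nlinarith
      refine ⟨hpos, fun W => ?_⟩
      by_cases hall : ∀ M ∈ F, Disjoint M W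
      · rw [hDj n W F hall, abs_of_pos hpos]
        have : 1 ≤ BB W F := by
          unfold BB
          apply Real.one_le_exp
          positivity
        nlinarith
      · push Not at hall
        obtain ⟨M, hM, hMW⟩ := hall
        obtain ⟨hp, h2⟩ := hstep M hM
        have hG : Good (F.erase M) := good_sub (Finset.erase_subset _ _) hgood
        obtain ⟨_, hW⟩ := ih (F.erase M) (by rw [Finset.card_erase_of_mem hM, hF]; simp) hG
        set G := F.erase M with hGdef
        have e1 := hI n W M G (Finset.notMem_erase _ _)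
        rw [hGdef, Finset.insert_erase hM, ← hGdef] at e1
        have hj : 1 ≤ (M ∩ W).card := by
          rw [Nat.succ_le_iff, Finset.card_pos]
          rw [Finset.not_disjoint_iff] at hMW
          obtain ⟨v, h1, h2⟩ := hMW
          exact ⟨v, Finset.mem_inter.mpr ⟨h1, h2⟩⟩
        have hjm : (M ∩ W).card ≤ M.card := Finset.card_le_card Finset.inter_subset_left
        have hd : (M \ W).card = M.card - (M ∩ W).card := by
          rw [Finset.card_sdiff, Finset.inter_comm]
        have hn := hN M.card (M ∩ W).card (hgood.1 M hM) hj hjm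
        rw [← hd] at hn
        have hBF : BB W F = BB W G * Real.exp (3 * (M ∩ W).card / M.card) := by
          unfold BB
          rw [← Real.exp_add]
          congr 1
          rw [← Finset.insert_erase hM, ← hGdef,
            Finset.sum_insert (by rw [hGdef]; exact Finset.notMem_erase _ _)]
          ring
        have e2 : |ZZ (W ∪ M) G| ≤ BB W G * (6 / 5 : ℝ) ^ (M \ W).card * ZZ ∅ G := by
          refine (hW (W ∪ M)).trans ?_
          apply mul_le_mul_of_nonneg_right _ hp.le
          refine (BB_union W M G).trans ?_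
          exact mul_le_mul_of_nonneg_left (BB_le hG _) (BB_pos _ _).le
        have e3 : |ZZ W F| ≤ |ZZ W G| + 2 * (1 / 2 : ℝ) ^ (M \ W).card * |ZZ (W ∪ M) G| := by
          rw [e1]
          refine (abs_sub _ _).trans ?_
          rw [abs_mul, abs_mul, abs_pow]
          norm_num
        have e4 : 2 * (1 / 2 : ℝ) ^ (M \ W).card * |ZZ (W ∪ M) G| ≤
            2 * (1 / 2 : ℝ) ^ (M \ W).card * (BB W G * (6 / 5 : ℝ) ^ (M \ W).card * ZZ ∅ G) :=
          mul_le_mul_of_nonneg_left e2 (by positivity)
        have e5 : (3 / 5 : ℝ) ^ (M \ W).card =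
            (1 / 2 : ℝ) ^ (M \ W).card * (6 / 5 : ℝ) ^ (M \ W).card := by
          rw [← mul_pow]
          norm_num
        have hBG : 0 < BB W G := BB_pos _ _
        calc |ZZ W F| ≤ |ZZ W G| + 2 * (1 / 2 : ℝ) ^ (M \ W).card * |ZZ (W ∪ M) G| := e3
          _ ≤ BB W G * ZZ ∅ G + 2 * (1 / 2 : ℝ) ^ (M \ W).card *
                (BB W G * (6 / 5 : ℝ) ^ (M \ W).card * ZZ ∅ G) := add_le_add (hW W) e4
          _ = BB W G * (1 + 2 * (3 / 5 : ℝ) ^ (M \ W).card) * ZZ ∅ G := by
              rw [e5]
              ring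
          _ ≤ BB W G * (Real.exp (3 * (M ∩ W).card / M.card) *
                (1 - 2 * (3 / 5 : ℝ) ^ M.card)) * ZZ ∅ G := by
              apply mul_le_mul_of_nonneg_right _ hp.le
              exact mul_le_mul_of_nonneg_left hn hBG.le
          _ = BB W F * ((1 - 2 * (3 / 5 : ℝ) ^ M.card) * ZZ ∅ G) := by
              rw [hBF]
              ring
          _ ≤ BB W F * ZZ ∅ F := mul_le_mul_of_nonneg_left h2 (BB_pos _ _).le
  exact key F.card F rfl ⟨h12, hread⟩

end Pool.Agent.MP3145b1
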