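import Pool.Agent.Lib.MP_3145b1_co.Spec

set_option autoImplicit false

namespace Pool.Agent.MP3145b1

open Finset

private theorem pow_dec (q : ℝ) (hq0 : 0 < q) (t₀ : ℕ) (ht₀ : 1 ≤ t₀) (hq : q * (t₀ + 1) ≤ t₀)
    (t : ℕ) (ht : t₀ ≤ t) : (t : ℝ) * q ^ t ≤ t₀ * q ^ t₀ := by
  have hq1 : q ≤ 1 := by
    have h1 : (1 : ℝ) ≤ t₀ := by exact_mod_cast ht₀
    nlinarith
  induction t, ht using Nat.le_induction with
  | base => exact le_refl _
  | succ t ht ih =>
    refine le_trans ?_ ih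
    have h1 : (t₀ : ℝ) ≤ t := by exact_mod_cast ht
    have h2 : ((t + 1 : ℕ) : ℝ) * q ^ (t + 1) = (q * (t + 1)) * q ^ t := by
      push_cast
      ring
    rw [h2]
    apply mul_le_mul_of_nonneg_right _ (by positivity)
    nlinarith

theorem num : S_Num := by
  intro m j hm hj hjm
  have hm12 : (12 : ℝ) ≤ m := by exact_mod_cast hm
  have hmp : (0 : ℝ) < m := by linarith
  have hj1 : (1 : ℝ) ≤ j := by exact_mod_cast hj
  have hb : (3 / 5 : ℝ) ^ m ≤ 1 / 400 := by
    calc (3 / 5 : ℝ) ^ m ≤ (3 / 5 : ℝ) ^ 12 :=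
          pow_le_pow_of_le_one (by norm_num) (by norm_num) hm
      _ ≤ 1 / 400 := by norm_num
  have hb0 : (0 : ℝ) < (3 / 5 : ℝ) ^ m := by positivity
  rcases le_or_gt m (2 * j) with h | h
  · have h1 : (3 / 5 : ℝ) ^ (m - j) ≤ 1 := pow_le_one₀ (by norm_num) (by norm_num)
    have h2 : (3 / 2 : ℝ) ≤ 3 * j / m := by
      rw [le_div_iff₀ hmp]
      have : (m : ℝ) ≤ 2 * j := by exact_mod_cast h
      linarith
    have h3 : (4 : ℝ) ≤ Real.exp (3 * j / m) := by
      refine le_trans ?_ (Real.exp_le_exp.mpr h2)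
      have h4 := Real.exp_one_gt_d9
      have h5 : Real.exp (3 / 2) * Real.exp (3 / 2) = Real.exp 1 ^ 3 := by
        rw [← Real.exp_add, ← Real.exp_nat_mul]
        norm_num
      have h6 : (2.7 : ℝ) ^ 3 ≤ Real.exp 1 ^ 3 := by
        apply pow_le_pow_left₀ (by norm_num)
        norm_num at h4 ⊢
        linarith
      have h7 : 0 < Real.exp (3 / 2) := Real.exp_pos _
      nlinarith
    nlinarith
  · obtain ⟨t, ht⟩ : ∃ t, t = m - j := ⟨_, rfl⟩
    rw [← ht]
    have ht6 : 6 ≤ t := by omega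
    have h2t : (m : ℝ) ≤ 2 * t := by exact_mod_cast (by omega : m ≤ 2 * t)
    have htp : (0 : ℝ) < t := by exact_mod_cast (by omega : 0 < t)
    have h1 := pow_dec (3 / 5) (by norm_num) 6 (by norm_num) (by norm_num) t ht6
    have h2 := pow_dec (3 / 5) (by norm_num) 12 (by norm_num) (by norm_num) m hm
    norm_num at h1 h2
    have h3 : (3 / 5 : ℝ) ^ t ≤ 0.28 / t := by
      rw [le_div_iff₀ htp]
      nlinarith
    have h4 : (0.28 : ℝ) / t ≤ 0.56 / m := by
      rw [div_le_div_iff₀ htp hmp]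
      nlinarith
    have h5 : (3 / 5 : ℝ) ^ m ≤ 0.03 / m := by
      rw [le_div_iff₀ hmp]
      nlinarith
    have h6 : 1 + 3 / (m : ℝ) ≤ Real.exp (3 * j / m) := by
      have h7 := Real.add_one_le_exp (3 * (j : ℝ) / m)
      have h8 : 3 / (m : ℝ) ≤ 3 * j / m := by
        apply (div_le_div_iff_of_pos_right hmp).mpr
        linarith
      linarith
    have h9 : 3 / (m : ℝ) ≤ 1 / 4 := by
      rw [div_le_iff₀ hmp]
      linarith
    have h10 : (0 : ℝ) < 3 / m := by positivity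
    have h11 : (1 + 3 / (m : ℝ)) * (1 - 2 * (3 / 5 : ℝ) ^ m) ≤
        Real.exp (3 * j / m) * (1 - 2 * (3 / 5 : ℝ) ^ m) :=
      mul_le_mul_of_nonneg_right h6 (by linarith)
    refine le_trans ?_ h11
    have h12 : (0.56 : ℝ) / m = 0.56 * (1 / m) := by ring
    have h13 : (0.03 : ℝ) / m = 0.03 * (1 / m) := by ring
    have h14 : (3 : ℝ) / m = 3 * (1 / m) := by ring
    have h15 : (0 : ℝ) < 1 / m := by positivity
    rw [h14] at h9 ⊢
    rw [h12] at h4
    rw [h13] at h5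
    nlinarith

end Pool.Agent.MP3145b1
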