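import Pool.Agent.Lib.MP_3145b1_co.Spec

/-!
# MP_3145b1_co, OddP: an odd number of subsets with good probability
-/

set_option autoImplicit false

namespace Pool.Agent.MP3145b1

open Finset

variable {n : ℕ}

/-- the number of the sets `C ⊆ N` with `L ⊆ Y ∪ C` -/
private theorem op_card (N Y L : Finset (Fin n)) (hY : Disjoint Y N) :
    (N.powerset.filter fun C => L ⊆ Y ∪ C).card =
      if L \ N ⊆ Y then 2 ^ (N.card - (L ∩ N).card) else 0 := by
  classical
  by_cases h : L \ N ⊆ Y
  · rw [if_pos h, ← card_Icc_finset (inter_subset_right : L ∩ N ⊆ N)]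
    congr 1
    ext C
    rw [mem_filter, mem_powerset, mem_Icc]
    constructor
    · rintro ⟨h1, h2⟩
      refine ⟨fun x hx => ?_, h1⟩
      have hx' := mem_inter.1 hx
      rcases mem_union.1 (h2 hx'.1) with h3 | h3
      · exact absurd hx'.2 (disjoint_left.1 hY h3)
      · exact h3
    · rintro ⟨h1, h2⟩
      refine ⟨h2, fun x hx => ?_⟩
      by_cases hxN : x ∈ N
      · exact mem_union_right _ (h1 (mem_inter.2 ⟨hx, hxN⟩))
      · exact mem_union_left _ (h (mem_sdiff.2 ⟨hx, hxN⟩))
  · rw [if_neg h, card_eq_zero, filter_eq_empty_iff]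
    intro C hC h2
    refine h fun x hx => ?_
    have hx' := mem_sdiff.1 hx
    rcases mem_union.1 (h2 hx'.1) with h3 | h3
    · exact h3
    · exact absurd (mem_powerset.1 hC h3) hx'.2

/-- for every `Y` outside of `N` there is `C ⊆ N` with an odd number -/
private theorem op_odd (Lo : Finset (Finset (Fin n))) (N Y : Finset (Fin n)) (hN : N ∈ Lo)
    (hmax : ∀ L ∈ Lo, L.card ≤ N.card) (hY : Disjoint Y N) :
    ∃ C ⊆ N, Odd (Lo.filter fun L => L ⊆ Y ∪ C).card := by
  classical
  by_contra hcon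
  have heven : ∀ C ∈ N.powerset, Even (Lo.filter fun L => L ⊆ Y ∪ C).card := by
    intro C hC
    rw [← Nat.not_odd_iff_even]
    exact fun h => hcon ⟨C, mem_powerset.1 hC, h⟩
  have h1 : Even (∑ C ∈ N.powerset, (Lo.filter fun L => L ⊆ Y ∪ C).card) := even_sum _ heven
  have h2 : ∑ C ∈ N.powerset, (Lo.filter fun L => L ⊆ Y ∪ C).card =
      ∑ L ∈ Lo, (N.powerset.filter fun C => L ⊆ Y ∪ C).card := by
    simp only [card_filter]
    exact sum_comm
  rw [h2, ← add_sum_erase Lo _ hN] at h1
  have h3 : Even (∑ L ∈ Lo.erase N, (N.powerset.filter fun C => L ⊆ Y ∪ C).card) := by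
    refine even_sum _ fun L hL => ?_
    have hL' := mem_erase.1 hL
    rw [op_card N Y L hY]
    by_cases h : L \ N ⊆ Y
    · rw [if_pos h]
      have h4 : (L ∩ N).card < N.card := by
        refine card_lt_card ⟨inter_subset_right, fun h5 => hL'.1 ?_⟩
        have h6 : N ⊆ L := fun x hx => (mem_inter.1 (h5 hx)).1
        exact (eq_of_subset_of_card_le h6 (hmax L hL'.2)).symm
      exact (Nat.even_pow.2 ⟨even_two, by omega⟩)
    · rw [if_neg h]
      exact Even.zero
  have h4 : (N.powerset.filter fun C => N ⊆ Y ∪ C).card = 1 := by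
    rw [op_card N Y N hY, if_pos (by rw [sdiff_self]; exact empty_subset _), inter_self,
      Nat.sub_self, pow_zero]
  rw [h4] at h1
  have h5 := (Nat.even_add.1 h1).2 h3
  exact absurd h5 (by decide)

/-- the supersets of a set -/
private theorem op_sup (L : Finset (Fin n)) :
    ((univ.filter fun X : Finset (Fin n) => L ⊆ X).card : ℝ) = 2 ^ n * (1 / 2 : ℝ) ^ L.card := by
  classical
  have h1 : (univ.filter fun X : Finset (Fin n) => L ⊆ X) = Icc L univ := by
    ext X
    rw [mem_filter, mem_Icc]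
    exact ⟨fun h => ⟨h.2, subset_univ X⟩, fun h => ⟨mem_univ X, h.1⟩⟩
  rw [h1, card_Icc_finset (subset_univ L), card_univ, Fintype.card_fin]
  have h2 : L.card ≤ n := by
    have := card_le_univ L
    rwa [Fintype.card_fin] at this
  generalize L.card = c at h2
  obtain ⟨m, rfl⟩ := Nat.exists_eq_add_of_le h2
  rw [Nat.add_sub_cancel_left]
  push_cast
  rw [pow_add, one_div, inv_pow]
  field_simp

private theorem op_pow (U : Finset (Fin n)) (k : ℕ) (hk : U.card ≤ k) :
    (2 : ℝ) ^ n * (1 / 2 : ℝ) ^ k ≤ ((Uᶜ).powerset.card : ℝ) := by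
  have h2 : U.card ≤ n := by
    have := card_le_univ U
    rwa [Fintype.card_fin] at this
  have h1 : ((Uᶜ).powerset.card : ℝ) = 2 ^ n * (1 / 2 : ℝ) ^ U.card := by
    rw [card_powerset, card_compl, Fintype.card_fin]
    generalize U.card = c at h2
    obtain ⟨m, rfl⟩ := Nat.exists_eq_add_of_le h2
    rw [Nat.add_sub_cancel_left]
    push_cast
    rw [pow_add, one_div, inv_pow]
    field_simp
  rw [h1]
  exact mul_le_mul_of_nonneg_left (pow_le_pow_of_le_one (by norm_num) (by norm_num) hk)
    (by positivity)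

theorem oddP : S_OddP := by
  classical
  intro n Q N s t a hN hNs hst hmax ha hsum
  -- the elements outside of `N`
  have hw : ∀ L ∈ Q.filter (fun L => s < L.card ∧ L.card ≤ t), ∃ w, w ∈ L ∧ w ∉ N := by
    intro L hL
    have hL' := (mem_filter.1 hL).2
    by_contra hcon
    have h1 : L ⊆ N := fun x hx => by
      by_contra hxN
      exact hcon ⟨x, hx, hxN⟩
    have := card_le_card h1
    omega
  obtain ⟨R, hRa, hR⟩ : ∃ R : Finset (Fin n), R.card ≤ a ∧
      ∀ L ∈ Q.filter (fun L => s < L.card ∧ L.card ≤ t), ∃ w, w ∈ L ∧ w ∉ N ∧ w ∈ R := by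
    choose w hw1 hw2 using hw
    refine ⟨(Q.filter (fun L => s < L.card ∧ L.card ≤ t)).attach.image fun L => w L.1 L.2,
      card_image_le.trans (by rw [card_attach]; exact ha), fun L hL =>
        ⟨w L hL, hw1 L hL, hw2 L hL, mem_image.2 ⟨⟨L, hL⟩, mem_attach _ _, rfl⟩⟩⟩
  have hRc : (N ∪ R).card ≤ N.card + a := by
    have h1 := card_union_le N R
    omega
  -- the odd sets
  obtain ⟨Lo, hLo⟩ : ∃ Lo, Lo = Q.filter (fun L => L.card ≤ s) := ⟨_, rfl⟩
  have hodd : ∀ Y ∈ ((N ∪ R)ᶜ).powerset, ∃ C ⊆ N, Odd (Lo.filter fun L => L ⊆ Y ∪ C).card := by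
    intro Y hY
    refine op_odd Lo N Y ?_ ?_ ?_
    · rw [hLo]
      exact mem_filter.2 ⟨hN, hNs⟩
    · intro L hL
      rw [hLo] at hL
      exact hmax L (mem_filter.1 hL).1 (mem_filter.1 hL).2
    · rw [disjoint_left]
      intro x hx hxN
      exact (mem_compl.1 (mem_powerset.1 hY hx)) (mem_union_left _ hxN)
  choose! C hC1 hC2 using hodd
  obtain ⟨G, hG⟩ : ∃ G : Finset (Finset (Fin n)), G = univ.filter fun X =>
      Odd ((Q.filter fun L => L.card ≤ t).filter fun L => L ⊆ X).card := ⟨_, rfl⟩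
  have hGc : (2 : ℝ) ^ n * (1 / 2 : ℝ) ^ (N.card + a) ≤ (G.card : ℝ) := by
    refine (op_pow (N ∪ R) (N.card + a) hRc).trans ?_
    have h1 : ((N ∪ R)ᶜ).powerset.card ≤ G.card := by
      refine card_le_card_of_injOn (fun Y => Y ∪ C Y) (fun Y hY => ?_) ?_
      · have hY' := mem_coe.1 hY
        have hYs := mem_powerset.1 hY'
        rw [hG, mem_coe, mem_filter]
        refine ⟨mem_univ _, ?_⟩
        have h2 : ((Q.filter fun L => L.card ≤ t).filter fun L => L ⊆ Y ∪ C Y) =
            Lo.filter fun L => L ⊆ Y ∪ C Y := by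
          ext L
          rw [hLo, mem_filter, mem_filter, mem_filter, mem_filter]
          constructor
          · rintro ⟨⟨h3, h4⟩, h5⟩
            refine ⟨⟨h3, ?_⟩, h5⟩
            by_contra h6
            have h7 : L ∈ Q.filter (fun L => s < L.card ∧ L.card ≤ t) :=
              mem_filter.2 ⟨h3, by omega, h4⟩
            obtain ⟨w, hw1, hw2, hw3⟩ := hR L h7
            rcases mem_union.1 (h5 hw1) with h8 | h8
            · exact (mem_compl.1 (hYs h8)) (mem_union_right _ hw3)
            · exact hw2 (hC1 Y hY' h8)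
          · rintro ⟨⟨h3, h4⟩, h5⟩
            exact ⟨⟨h3, by omega⟩, h5⟩
        rw [h2]
        exact hC2 Y hY'
      · intro Y hY Y' hY' h
        have key : ∀ Y ∈ ((N ∪ R)ᶜ).powerset, (Y ∪ C Y) \ N = Y := by
          intro Y hY
          ext x
          rw [mem_sdiff, mem_union]
          constructor
          · rintro ⟨h1 | h1, h2⟩
            · exact h1
            · exact absurd (hC1 Y hY h1) h2
          · intro h1
            exact ⟨Or.inl h1, fun h2 => (mem_compl.1 (mem_powerset.1 hY h1))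
              (mem_union_left _ h2)⟩
        rw [← key Y (mem_coe.1 hY), ← key Y' (mem_coe.1 hY')]
        exact congrArg (fun X => X \ N) h
    exact_mod_cast h1
  -- the bad sets
  obtain ⟨B, hB⟩ : ∃ B : Finset (Finset (Fin n)), B =
      (Q.filter (fun L => t < L.card)).biUnion fun L => univ.filter fun X => L ⊆ X := ⟨_, rfl⟩
  have hBc : (B.card : ℝ) ≤ 2 ^ n * (1 / 2 : ℝ) ^ (N.card + a + 1) := by
    have h1 : B.card ≤ ∑ L ∈ Q.filter (fun L => t < L.card),
        (univ.filter fun X : Finset (Fin n) => L ⊆ X).card := by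
      rw [hB]
      exact card_biUnion_le
    have h2 : (B.card : ℝ) ≤ ∑ L ∈ Q.filter (fun L => t < L.card),
        ((univ.filter fun X : Finset (Fin n) => L ⊆ X).card : ℝ) := by exact_mod_cast h1
    refine h2.trans ?_
    rw [sum_congr rfl fun L _ => op_sup L, ← mul_sum]
    exact mul_le_mul_of_nonneg_left hsum (by positivity)
  have hsub : G \ B ⊆ univ.filter fun A : Finset (Fin n) => Odd (Q.filter (fun L => L ⊆ A)).card := by
    intro X hX
    obtain ⟨h1, h2⟩ := mem_sdiff.1 hX
    rw [hG] at h1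
    rw [mem_filter]
    refine ⟨mem_univ _, ?_⟩
    have h3 : Q.filter (fun L => L ⊆ X) =
        (Q.filter fun L => L.card ≤ t).filter fun L => L ⊆ X := by
      ext L
      rw [mem_filter, mem_filter, mem_filter]
      constructor
      · rintro ⟨h4, h5⟩
        refine ⟨⟨h4, ?_⟩, h5⟩
        by_contra h6
        refine h2 ?_
        rw [hB, mem_biUnion]
        exact ⟨L, mem_filter.2 ⟨h4, by omega⟩, mem_filter.2 ⟨mem_univ _, h5⟩⟩
      · rintro ⟨⟨h4, _⟩, h5⟩
        exact ⟨h4, h5⟩
    rw [h3]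
    exact (mem_filter.1 h1).2
  have h1 := card_le_card hsub
  have h2 := le_card_sdiff B G
  have h3 : (G.card : ℝ) ≤
      ((univ.filter fun A : Finset (Fin n) => Odd (Q.filter (fun L => L ⊆ A)).card).card : ℝ) +
        B.card := by
    have h4 : G.card ≤
      (univ.filter fun A : Finset (Fin n) => Odd (Q.filter (fun L => L ⊆ A)).card).card +
        B.card := by omega
    exact_mod_cast h4
  have h5 : (2 : ℝ) ^ n * (1 / 2 : ℝ) ^ (N.card + a) =
      2 * (2 ^ n * (1 / 2 : ℝ) ^ (N.card + a + 1)) := by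
    rw [pow_succ (1 / 2 : ℝ) (N.card + a)]
    ring
  linarith

end Pool.Agent.MP3145b1
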