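import Pool.Agent.Lib.MP_3145b1_co.Spec

/-!
# MP_3145b1_co: the geometric tail (helper18)
-/

set_option autoImplicit false

namespace Pool.Agent.MP3145b1

open Finset

private theorem tail_term {x m : ℕ} (hm : 1 ≤ m) (hx : m ≤ x) :
    (1 / 2 : ℝ) ^ x ≤ (m : ℝ) / x * (1 / 2 : ℝ) ^ m := by
  obtain ⟨y, rfl⟩ := Nat.exists_eq_add_of_le hx
  have hmr : (1 : ℝ) ≤ m := by exact_mod_cast hm
  have hyr : (0 : ℝ) ≤ y := Nat.cast_nonneg y
  have h1 : (1 : ℝ) + y ≤ 2 ^ y := by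
    have h := one_add_mul_le_pow (by norm_num : (-2 : ℝ) ≤ 1) y
    norm_num at h
    linarith
  have h2 : ((m : ℝ) + y) * (1 / 2 : ℝ) ^ y ≤ m := by
    have h3 : ((m : ℝ) + y) ≤ m * 2 ^ y := by nlinarith
    have h4 : (0 : ℝ) < (1 / 2 : ℝ) ^ y := by positivity
    calc ((m : ℝ) + y) * (1 / 2 : ℝ) ^ y ≤ m * 2 ^ y * (1 / 2 : ℝ) ^ y :=
          mul_le_mul_of_nonneg_right h3 h4.le
      _ = m := by
          rw [mul_assoc, ← mul_pow]
          norm_num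
  have h5 : (1 / 2 : ℝ) ^ y ≤ (m : ℝ) / ((m + y : ℕ) : ℝ) := by
    push_cast
    rw [le_div_iff₀ (by linarith)]
    linarith
  rw [pow_add, mul_comm]
  exact mul_le_mul_of_nonneg_right h5 (by positivity)

theorem tail : S_Tail := by
  intro n d K P hP v m hm
  calc ∑ M ∈ P.filter (fun M => v ∈ M ∧ m ≤ M.card), (1 / 2 : ℝ) ^ M.card
      ≤ ∑ M ∈ P.filter (fun M => v ∈ M ∧ m ≤ M.card), (m : ℝ) / M.card * (1 / 2 : ℝ) ^ m :=
        sum_le_sum fun M hM => tail_term (by omega) (mem_filter.1 hM).2.2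
    _ = (∑ M ∈ P.filter (fun M => v ∈ M ∧ m ≤ M.card), (m : ℝ) / M.card) * (1 / 2 : ℝ) ^ m :=
        (sum_mul _ _ _).symm
    _ ≤ K * (1 / 2 : ℝ) ^ m := mul_le_mul_of_nonneg_right (hP v m hm) (by positivity)

end Pool.Agent.MP3145b1
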