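import Pool.Agent.Lib.MP_3145b1_co.Spec

/-!
# MP_3145b1_co: `ZZ` as an average over the cube (`S_ZAv`)
-/

set_option autoImplicit false

namespace Pool.Agent.MP3145b1

open Finset

private theorem zAvAux_restr {n : ℕ} (T A : Finset (Fin n)) (P : Finset (Finset (Fin n)))
    (hA : A ⊆ Tᶜ) : ff P A = ff (P.filter (fun M => Disjoint M T)) A := by
  unfold ff
  rw [Finset.prod_filter]
  refine Finset.prod_congr rfl fun M _ => ?_
  split_ifs with h
  · rfl
  · unfold sg
    rw [if_neg]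
    intro hM
    apply h
    rw [Finset.disjoint_left]
    intro x hx hxT
    exact (Finset.mem_compl.mp (hA (hM hx))) hxT

private theorem zAvAux_exp {n : ℕ} (A : Finset (Fin n)) (F : Finset (Finset (Fin n))) :
    ff F A = ∑ G ∈ F.powerset, if G.biUnion id ⊆ A then (-2 : ℝ) ^ G.card else 0 := by
  unfold ff
  have h1 : ∀ M ∈ F, sg M A = 1 + (if M ⊆ A then (-2 : ℝ) else 0) := by
    intro M _
    unfold sg
    split_ifs <;> norm_num
  rw [Finset.prod_congr rfl h1, Finset.prod_one_add]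
  refine Finset.sum_congr rfl fun G _ => ?_
  rw [Finset.prod_ite_zero, Finset.prod_const]
  by_cases h : G.biUnion id ⊆ A
  · have h3 : ∀ i ∈ G, i ⊆ A := Finset.biUnion_subset.mp h
    rw [if_pos h, if_pos h3]
  · have h3 : ¬ ∀ i ∈ G, i ⊆ A := fun h2 => h (Finset.biUnion_subset.mpr h2)
    rw [if_neg h, if_neg h3]

private theorem zAvAux_num {m u : ℕ} (h : u ≤ m) :
    (1 / 2 : ℝ) ^ m * (2 : ℝ) ^ (m - u) = (1 / 2 : ℝ) ^ u := by
  obtain ⟨k, rfl⟩ := Nat.exists_eq_add_of_le h
  rw [Nat.add_sub_cancel_left, pow_add, mul_assoc, ← mul_pow]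
  norm_num

theorem zAv : S_ZAv := by
  intro n T P
  have h1 : ∑ A ∈ (Tᶜ).powerset, ff P A = ∑ A ∈ (Tᶜ).powerset,
      ∑ G ∈ (P.filter (fun M => Disjoint M T)).powerset,
        if G.biUnion id ⊆ A then (-2 : ℝ) ^ G.card else 0 := by
    refine Finset.sum_congr rfl fun A hA => ?_
    rw [zAvAux_restr T A P (Finset.mem_powerset.mp hA), zAvAux_exp]
  rw [h1, Finset.sum_comm, Finset.mul_sum]
  unfold ZZ
  refine Finset.sum_congr rfl fun G hG => ?_
  have hU : G.biUnion id ⊆ Tᶜ := by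
    rw [Finset.biUnion_subset]
    intro M hM x hx
    rw [Finset.mem_compl]
    have h2 := (Finset.mem_filter.mp ((Finset.mem_powerset.mp hG) hM)).2
    exact Finset.disjoint_left.mp h2 hx
  have hc : (Tᶜ).card = n - T.card := by
    rw [Finset.card_compl, Fintype.card_fin]
  have h2 : ((Tᶜ).powerset.filter (fun A => G.biUnion id ⊆ A)).card =
      2 ^ (n - T.card - (G.biUnion id).card) := by
    rw [← Finset.Icc_eq_filter_powerset, Finset.card_Icc_finset hU, hc]
  have h3 : (G.biUnion id).card ≤ n - T.card := by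
    rw [← hc]
    exact Finset.card_le_card hU
  rw [← Finset.sum_filter, Finset.sum_const, h2, nsmul_eq_mul, Finset.sdiff_empty]
  push_cast
  calc (1 / 2 : ℝ) ^ (n - T.card) * (2 ^ (n - T.card - (G.biUnion id).card) * (-2) ^ G.card)
      = (-2) ^ G.card *
        ((1 / 2 : ℝ) ^ (n - T.card) * 2 ^ (n - T.card - (G.biUnion id).card)) := by ring
    _ = (-2) ^ G.card * (1 / 2) ^ (G.biUnion id).card := by rw [zAvAux_num h3]

end Pool.Agent.MP3145b1
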