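import Pool.Agent.Lib.MP_3145b1_co.Spec

/-!
# MP_3145b1_co, ZDisj: `ZZ` for disjoint sets (helper91)
-/

set_option autoImplicit false

namespace Pool.Agent.MP3145b1

open Finset

theorem zDisj : S_ZDisj := by
  intro n W F h
  unfold ZZ
  refine Finset.sum_congr rfl fun G hG => ?_
  have h1 : (G.biUnion id) \ W = G.biUnion id := by
    refine Finset.sdiff_eq_self_of_disjoint ?_
    rw [Finset.disjoint_biUnion_left]
    intro M hM
    exact h M (Finset.mem_powerset.1 hG hM)
  rw [h1, Finset.sdiff_empty]

end Pool.Agent.MP3145b1
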