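import Pool.Agent.Lib.MP_3145b1_co.Spec

/-!
# MP_3145b1_co: the recursion of `ZZ`
-/

set_option autoImplicit false

namespace Pool.Agent.MP3145b1

open Finset

theorem zIns : S_ZIns := by
  intro n W M F hM
  unfold ZZ
  rw [Finset.sum_powerset_insert hM, Finset.mul_sum, sub_eq_add_neg, ← Finset.sum_neg_distrib]
  congr 1
  apply Finset.sum_congr rfl
  intro G hG
  have hMG : M ∉ G := fun h => hM (Finset.mem_powerset.mp hG h)
  have hc : (((insert M G).biUnion id) \ W).card =
      (M \ W).card + ((G.biUnion id) \ (W ∪ M)).card := by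
    rw [← Finset.card_union_of_disjoint]
    · congr 1
      ext x
      rw [Finset.biUnion_insert]
      simp only [id_eq, mem_sdiff, mem_union]
      tauto
    · rw [Finset.disjoint_left]
      intro x hx hx'
      rw [mem_sdiff] at hx hx'
      exact hx'.2 (mem_union_right _ hx.1)
  rw [Finset.card_insert_of_notMem hMG, hc, pow_succ, pow_add]
  ring

end Pool.Agent.MP3145b1
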