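import Pool.Agent.Lib.MP_3145b1_co.Spec

/-!
# MP_3145b1_co: the product bound
-/

set_option autoImplicit false

namespace Pool.Agent.MP3145b1

open Finset

private theorem zPr_exp (y : ℝ) (h0 : 0 ≤ y) (h1 : y ≤ 1 / 2) : Real.exp (-(2 * y)) ≤ 1 - y := by
  have h2 : 2 * y + 1 ≤ Real.exp (2 * y) := Real.add_one_le_exp (2 * y)
  have h3 : 1 ≤ (1 - y) * Real.exp (2 * y) := by
    have h4 : (1 - y) * (2 * y + 1) ≤ (1 - y) * Real.exp (2 * y) :=
      mul_le_mul_of_nonneg_left h2 (by linarith)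
    nlinarith [h4, mul_nonneg h0 (by linarith : (0 : ℝ) ≤ 1 - 2 * y)]
  have h5 : Real.exp (-(2 * y)) * Real.exp (2 * y) = 1 := by
    rw [← Real.exp_add]
    simp
  have h6 : 0 < Real.exp (2 * y) := Real.exp_pos _
  nlinarith [h3, h5, h6]

private theorem zPr_hr {n d K : ℕ} {F G : Finset (Finset (Fin n))} (hGF : G ⊆ F)
    (h : HR d K F) : HR d K G := by
  intro v m hm
  refine le_trans (Finset.sum_le_sum_of_subset_of_nonneg ?_ ?_) (h v m hm)
  · exact Finset.filter_subset_filter _ hGF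
  · intro M _ _
    positivity

private theorem zPr_one {n : ℕ} {F G : Finset (Finset (Fin n))} (hGF : G ⊆ F)
    (h : ∀ v : Fin n, ∑ M ∈ F.filter (fun M => v ∈ M), 1 / (M.card : ℝ) ≤ 1 / 20) :
    ∀ v : Fin n, ∑ M ∈ G.filter (fun M => v ∈ M), 1 / (M.card : ℝ) ≤ 1 / 20 := by
  intro v
  refine le_trans (Finset.sum_le_sum_of_subset_of_nonneg ?_ ?_) (h v)
  · exact Finset.filter_subset_filter _ hGF
  · intro M _ _
    positivity

private theorem zPr_sum {n d K m : ℕ} {G : Finset (Finset (Fin n))} (M : Finset (Fin n))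
    (hR : HR d K G) (hm : M.card = m) (hd : d < m) (hG : ∀ M' ∈ G, m ≤ M'.card) :
    ∑ M' ∈ G, ((M' ∩ M).card : ℝ) / M'.card ≤ K := by
  have hm0 : (0 : ℝ) < m := by
    have : 0 < m := lt_of_le_of_lt (Nat.zero_le d) hd
    exact_mod_cast this
  have h1 : ∑ M' ∈ G, ((M' ∩ M).card : ℝ) / M'.card =
      ∑ v ∈ M, ∑ M' ∈ G.filter (fun M' => v ∈ M'), 1 / (M'.card : ℝ) := by
    have h2 : ∀ v, ∑ M' ∈ G.filter (fun M' => v ∈ M'), 1 / (M'.card : ℝ) =
        ∑ M' ∈ G, if v ∈ M' then 1 / (M'.card : ℝ) else 0 := fun v => Finset.sum_filter _ _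
    simp only [h2]
    rw [Finset.sum_comm]
    apply Finset.sum_congr rfl
    intro M' _
    rw [← Finset.sum_filter, Finset.sum_const, nsmul_eq_mul]
    have h3 : M.filter (fun v => v ∈ M') = M' ∩ M := by
      ext v
      rw [mem_filter, mem_inter]
      tauto
    rw [h3]
    ring
  have h4 : ∀ v : Fin n, ∑ M' ∈ G.filter (fun M' => v ∈ M'), 1 / (M'.card : ℝ) ≤ K / m := by
    intro v
    have h5 := hR v m hd
    have h6 : G.filter (fun M' => v ∈ M' ∧ m ≤ M'.card) = G.filter (fun M' => v ∈ M') := by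
      apply Finset.filter_congr
      intro M' hM'
      exact ⟨fun h => h.1, fun h => ⟨h, hG M' hM'⟩⟩
    rw [h6] at h5
    have h7 : ∑ M' ∈ G.filter (fun M' => v ∈ M'), (m : ℝ) / M'.card =
        m * ∑ M' ∈ G.filter (fun M' => v ∈ M'), 1 / (M'.card : ℝ) := by
      rw [Finset.mul_sum]
      apply Finset.sum_congr rfl
      intro M' _
      ring
    rw [h7] at h5
    rw [le_div_iff₀ hm0]
    linarith
  rw [h1]
  calc ∑ v ∈ M, ∑ M' ∈ G.filter (fun M' => v ∈ M'), 1 / (M'.card : ℝ)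
      ≤ ∑ _v ∈ M, (K : ℝ) / m := Finset.sum_le_sum fun v _ => h4 v
    _ = K := by
        rw [Finset.sum_const, nsmul_eq_mul, hm]
        field_simp

theorem zPr : S_ZIns → S_LLL → S_ZPr := by
  intro hZ hL n d K F
  generalize hc : F.card = c
  induction c generalizing F with
  | zero =>
    intro _ _ _
    rw [Finset.card_eq_zero] at hc
    subst hc
    simp [ZZ]
  | succ c ih =>
    intro hR hF hS
    have hne : F.Nonempty := by
      rw [← Finset.card_pos, hc]
      exact Nat.succ_pos c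
    obtain ⟨M, hM, hmin⟩ := Finset.exists_min_image F (fun M => M.card) hne
    set G := F.erase M with hG
    have hGF : G ⊆ F := Finset.erase_subset M F
    have hMG : M ∉ G := Finset.notMem_erase M F
    have hins : insert M G = F := Finset.insert_erase hM
    have hcG : G.card = c := by
      rw [hG, Finset.card_erase_of_mem hM, hc]
      rfl
    have hRG : HR d K G := zPr_hr hGF hR
    have hFG : ∀ M ∈ G, 12 ≤ M.card ∧ d < M.card ∧
        2 * Real.exp (3 * K) * (1 / 2 : ℝ) ^ M.card ≤ 1 / 2 := fun M' h => hF M' (hGF h)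
    have hSG := zPr_one hGF hS
    have h1 := ih G hcG hRG hFG hSG
    obtain ⟨h2, h3⟩ := hL n G (fun M' h => (hFG M' h).1) hSG
    have h4 := hZ n ∅ M G hMG
    rw [hins, Finset.sdiff_empty, Finset.empty_union] at h4
    have h5 : ∑ M' ∈ G, ((M' ∩ M).card : ℝ) / M'.card ≤ K :=
      zPr_sum M hRG rfl (hF M hM).2.1 (fun M' h => hmin M' (hGF h))
    have h6 : Real.exp (3 * ∑ M' ∈ G, ((M' ∩ M).card : ℝ) / M'.card) ≤ Real.exp (3 * K) :=
      Real.exp_le_exp.mpr (by linarith)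
    have h7 : ZZ M G ≤ Real.exp (3 * K) * ZZ ∅ G :=
      (le_abs_self _).trans ((h3 M).trans (mul_le_mul_of_nonneg_right h6 h2.le))
    set y : ℝ := 2 * Real.exp (3 * K) * (1 / 2 : ℝ) ^ M.card with hy
    have hy0 : 0 ≤ y := by positivity
    have hy1 : y ≤ 1 / 2 := (hF M hM).2.2
    have h8 : (1 - y) * ZZ ∅ G ≤ ZZ ∅ F := by
      rw [h4, hy]
      have h9 : 2 * (1 / 2 : ℝ) ^ M.card * ZZ M G ≤
          2 * (1 / 2 : ℝ) ^ M.card * (Real.exp (3 * K) * ZZ ∅ G) :=
        mul_le_mul_of_nonneg_left h7 (by positivity)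
      linarith
    have h10 : ∑ M' ∈ F, (1 / 2 : ℝ) ^ M'.card =
        (1 / 2 : ℝ) ^ M.card + ∑ M' ∈ G, (1 / 2 : ℝ) ^ M'.card := by
      rw [← hins, Finset.sum_insert hMG]
    have h11 : Real.exp (-(4 * Real.exp (3 * K) * ∑ M' ∈ F, (1 / 2 : ℝ) ^ M'.card)) =
        Real.exp (-(2 * y)) *
          Real.exp (-(4 * Real.exp (3 * K) * ∑ M' ∈ G, (1 / 2 : ℝ) ^ M'.card)) := by
      rw [← Real.exp_add, h10, hy]
      congr 1
      ring
    rw [h11]
    refine le_trans ?_ h8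
    exact mul_le_mul (zPr_exp y hy0 hy1) h1 (Real.exp_pos _).le (by linarith)

end Pool.Agent.MP3145b1
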