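import Mathlib

/-!
# MP_3145b1_co (Fourier min-entropy-influence), definitions and module statements

Points of the cube are finite sets `A : Finset (Fin n)` (the set of the coordinates equal to one).

Part R: for `f = (-1)^p`, `p` a polynomial over `F_2` with family of monomials `P`, of bounded
harmonic read (`HR d K P`), `max |f^| >= exp (- c I(f))`.

Part E: for every Boolean function `Ent(f) <= 2 log (2/u) I(f) + 2 log (sum (1+u)^|S| f^(S)^2)`.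

Every module statement is a `Prop` (`def S_X : Prop`); the module proves `theorem x : ... -> S_X`.
-/

set_option autoImplicit false

namespace Pool.Agent.MP3145b1

open Finset

variable {n : ℕ}

/-- Value at the point `A` of the sign `(-1)^(x^M)`: `-1` if all the coordinates of `M` are one. -/
noncomputable def sg (M A : Finset (Fin n)) : ℝ := if M ⊆ A then -1 else 1

/-- The function `(-1)^p`, where `P` is the family of the monomials of `p`. -/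
noncomputable def ff (P : Finset (Finset (Fin n))) (A : Finset (Fin n)) : ℝ := ∏ M ∈ P, sg M A

/-- Fourier coefficient. -/
noncomputable def fc (f : Finset (Fin n) → ℝ) (S : Finset (Fin n)) : ℝ :=
  (1 / 2 : ℝ) ^ n * ∑ A : Finset (Fin n), f A * (-1 : ℝ) ^ (S ∩ A).card

/-- Total influence. -/
noncomputable def tinf (f : Finset (Fin n) → ℝ) : ℝ :=
  ∑ S : Finset (Fin n), (S.card : ℝ) * fc f S ^ 2

/-- Influence of the coordinate `v`: probability that `f` changes if `v` is flipped. -/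
noncomputable def inf1 (f : Finset (Fin n) → ℝ) (v : Fin n) : ℝ :=
  (1 / 2 : ℝ) ^ n *
    ((univ.filter fun A : Finset (Fin n) => f A ≠ f (symmDiff A {v})).card : ℝ)

/-- `ZZ W F` is the expectation of `∏ (1 - 2 x^M)`, `M ∈ F`, if the coordinates in `W` are one and
the other ones are uniform, written as a sum over subfamilies. -/
noncomputable def ZZ (W : Finset (Fin n)) (F : Finset (Finset (Fin n))) : ℝ :=
  ∑ G ∈ F.powerset, (-2 : ℝ) ^ G.card * (1 / 2 : ℝ) ^ ((G.biUnion id) \ W).card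

/-- Bounded harmonic read: for every variable `v` and `m > d`, the sum of `m / |M|` over the
monomials `M` that contain `v` and have degree at least `m` is at most `K`. -/
def HR (d K : ℕ) (P : Finset (Finset (Fin n))) : Prop :=
  ∀ v : Fin n, ∀ m : ℕ, d < m →
    ∑ M ∈ P.filter (fun M => v ∈ M ∧ m ≤ M.card), (m : ℝ) / M.card ≤ K

/-! ### Part R -/

/-- (Par, 50 lines) Parseval. Proof: `sum_S (-1)^|S∩A| (-1)^|S∩B|` is `2^n` if `A = B` and `0`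
otherwise (`(-1)^|S∩A| (-1)^|S∩B| = (-1)^|S ∩ (A △ B)|`; for `C` nonempty, `v ∈ C`, the
involution `S ↦ S △ {v}` changes the sign of `(-1)^|S∩C|`). Expand the square, exchange sums. -/
def S_Par : Prop := ∀ (n : ℕ) (f : Finset (Fin n) → ℝ),
  ∑ S : Finset (Fin n), fc f S ^ 2 = (1 / 2 : ℝ) ^ n * ∑ A : Finset (Fin n), f A ^ 2

/-- (ZIns, 40 lines) Recursion. Proof: `Finset.sum_powerset_insert`; for `G ⊆ F` (so `M ∉ G`)
`(insert M G).card = G.card + 1`, `((insert M G).biUnion id) \ W` is the disjoint union of `M \ W`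
and `(G.biUnion id) \ (W ∪ M)`. -/
def S_ZIns : Prop := ∀ (n : ℕ) (W M : Finset (Fin n)) (F : Finset (Finset (Fin n))), M ∉ F →
  ZZ W (insert M F) = ZZ W F - 2 * (1 / 2 : ℝ) ^ (M \ W).card * ZZ (W ∪ M) F

/-- (ZDisj, 20 lines) If all `M ∈ F` are disjoint from `W`, then `(G.biUnion id) \ W = G.biUnion id`
for all `G ⊆ F`. -/
def S_ZDisj : Prop := ∀ (n : ℕ) (W : Finset (Fin n)) (F : Finset (Finset (Fin n))),
  (∀ M ∈ F, Disjoint M W) → ZZ W F = ZZ ∅ F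

/-- (Num, 60 lines) Numerical inequality. Proof. Case `2 j ≥ m`: the left side is at most `3`,
`exp (3 j / m) ≥ exp (3 / 2) ≥ 4.48` (e.g. `exp 1 > 2.7182818283`, so `exp (3/2)^2 > 20.08`), and
`(3/5)^m ≤ (3/5)^12 ≤ 1/400`. Case `2 j < m`: put `t = m - j`, so `2 t ≥ m ≥ 12`, `t ≥ 6`;
`t (3/5)^t` is decreasing for `t ≥ 2`, so `t (3/5)^t ≤ 6 (3/5)^6 ≤ 0.28`, hence
`2 (3/5)^t ≤ 0.56 / t ≤ 1.12 / m`; also `m (3/5)^m ≤ 12 (3/5)^12 ≤ 0.03`, so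
`(1 + 3/m) (1 - 2 (3/5)^m) ≥ 1 + 3/m - 2 (3/5)^m (1 + 3/m) ≥ 1 + 2.9/m`, and
`exp (3 j/m) ≥ 1 + 3 j / m ≥ 1 + 3/m`. -/
def S_Num : Prop := ∀ m j : ℕ, 12 ≤ m → 1 ≤ j → j ≤ m →
  1 + 2 * (3 / 5 : ℝ) ^ (m - j) ≤ Real.exp (3 * j / m) * (1 - 2 * (3 / 5 : ℝ) ^ m)

/-- (LLL, 120 lines) Local lemma with signs. Put `B W F = exp (3 * sum_{M ∈ F} |M ∩ W| / |M|)`.
Proof: induction on `F.card` (statement for all families of this size which satisfy the two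
hypotheses; they pass to subfamilies).
(0) For `M ∈ F`, `G = F.erase M`, `X ⊆ M`: `B X G ≤ (6/5)^|X|`, since
`sum_{M' ∈ G} |M' ∩ X| / |M'| = sum_{v ∈ X} sum_{M' ∈ G, v ∈ M'} 1 / |M'| ≤ |X| / 20` and
`exp (3/20) ≤ 6/5`. (This holds for all `X`.)
(1) `ZZ ∅ F = ZZ ∅ G - 2 (1/2)^|M| ZZ M G` (S_ZIns) and `|ZZ M G| ≤ B M G * ZZ ∅ G ≤ (6/5)^|M| ZZ ∅ G`,
so `ZZ ∅ F ≥ (1 - 2 (3/5)^|M|) ZZ ∅ G > 0`.
(2) Let `W` be given. If all `M ∈ F` are disjoint from `W`, then `ZZ W F = ZZ ∅ F` (S_ZDisj) and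
`B ≥ 1`. Otherwise take `M ∈ F` with `j = |M ∩ W| ≥ 1`, `m = |M|`, `G = F.erase M`. Then
`|ZZ W F| ≤ |ZZ W G| + 2 (1/2)^(m-j) |ZZ (W ∪ M) G| ≤ (B W G + 2 (1/2)^(m-j) B (W ∪ M) G) ZZ ∅ G`,
`B (W ∪ M) G ≤ B W G * B (M \ W) G ≤ B W G (6/5)^(m-j)`, so
`|ZZ W F| ≤ B W G (1 + 2 (3/5)^(m-j)) ZZ ∅ G ≤ B W G exp (3 j/m) (1 - 2 (3/5)^m) ZZ ∅ G
≤ B W F * ZZ ∅ F` by S_Num and (1). For `F = ∅` everything is `1`. -/
def S_LLL : Prop := ∀ (n : ℕ) (F : Finset (Finset (Fin n))), (∀ M ∈ F, 12 ≤ M.card) →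
  (∀ v : Fin n, ∑ M ∈ F.filter (fun M => v ∈ M), 1 / (M.card : ℝ) ≤ 1 / 20) →
  0 < ZZ ∅ F ∧ ∀ W : Finset (Fin n),
    |ZZ W F| ≤ Real.exp (3 * ∑ M ∈ F, ((M ∩ W).card : ℝ) / M.card) * ZZ ∅ F

/-- (ZPr, 90 lines) Product bound. Proof: induction on `F.card`. Let `M ∈ F` have the least size
`m`, `G = F.erase M` (the hypotheses pass to `G`). By S_ZIns and S_LLL (for `G`)
`ZZ ∅ F ≥ (1 - 2 (1/2)^m exp (3 sum_{M' ∈ G} |M' ∩ M| / |M'|)) ZZ ∅ G`, and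
`sum_{M' ∈ G} |M' ∩ M| / |M'| = sum_{v ∈ M} sum_{M' ∈ G, v ∈ M'} 1 / |M'| ≤ sum_{v ∈ M} K / m = K`
(HR for `m`, all `|M'| ≥ m`). Put `y = 2 exp (3 K) (1/2)^m ≤ 1/2`; then `1 - y ≥ exp (- 2 y)`. -/
def S_ZPr : Prop := ∀ (n d K : ℕ) (F : Finset (Finset (Fin n))), HR d K F →
  (∀ M ∈ F, 12 ≤ M.card ∧ d < M.card ∧ 2 * Real.exp (3 * K) * (1 / 2 : ℝ) ^ M.card ≤ 1 / 2) →
  (∀ v : Fin n, ∑ M ∈ F.filter (fun M => v ∈ M), 1 / (M.card : ℝ) ≤ 1 / 20) →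
  Real.exp (-(4 * Real.exp (3 * K) * ∑ M ∈ F, (1 / 2 : ℝ) ^ M.card)) ≤ ZZ ∅ F

/-- (ZAv, 70 lines) The average of `ff P` over the points `A` disjoint from `T`. Proof: if `A ⊆ Tᶜ`
and `M` meets `T`, then `sg M A = 1`. So `ff P A = ff F A`, `F` the family on the right;
`ff F A = ∏ (1 + (if M ⊆ A then -2 else 0)) = sum_{G ⊆ F} (-2)^|G| [G.biUnion id ⊆ A]`
(`Finset.prod_one_add` or `Finset.prod_add`), and for `U = G.biUnion id ⊆ Tᶜ` the number of `A`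
with `U ⊆ A ⊆ Tᶜ` is `2^(n - |T| - |U|)`. -/
def S_ZAv : Prop := ∀ (n : ℕ) (T : Finset (Fin n)) (P : Finset (Finset (Fin n))),
  (1 / 2 : ℝ) ^ (n - T.card) * ∑ A ∈ (Tᶜ).powerset, ff P A =
    ZZ ∅ (P.filter (fun M => Disjoint M T))

/-- (FSub, 50 lines) Proof: `sum_{S ⊆ T} (-1)^|S ∩ A|` is `2^|T|` if `A ∩ T = ∅` and `0` otherwise
(involution `S ↦ S △ {v}`, `v ∈ A ∩ T`). -/
def S_FSub : Prop := ∀ (n : ℕ) (f : Finset (Fin n) → ℝ) (T : Finset (Fin n)),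
  ∑ S ∈ T.powerset, fc f S = (1 / 2 : ℝ) ^ (n - T.card) * ∑ A ∈ (Tᶜ).powerset, f A

/-- (Inf1, 80 lines, uses S_Par) Proof: for `g A = (f A - f (A △ {v})) / 2` one has
`fc g S = fc f S` if `v ∈ S` and `0` otherwise, and `g A ^ 2` is `1` if `f A ≠ f (A △ {v})` and `0`
otherwise. So by S_Par `inf1 f v = sum_{S ∋ v} fc f S ^ 2`; sum over `v`. -/
def S_Inf1 : Prop := ∀ (n : ℕ) (f : Finset (Fin n) → ℝ), (∀ A, f A = 1 ∨ f A = -1) →
  tinf f = ∑ v : Fin n, inf1 f v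

/-- (OddP, 150 lines) Proof. Let `L = {Q ∈ 𝓠 : |Q| ≤ s}` (`N ∈ L` has the greatest size in `L`),
`A' = {Q : s < |Q| ≤ t}`, `B' = {Q : t < |Q|}`. For `Q ∈ A'` choose `w_Q ∈ Q \ N` (possible since
`|Q| > s ≥ |N|`); let `R` be the set of these elements, `|R| ≤ a`, `R ∩ N = ∅`.
(1) For every `Y ⊆ (N ∪ R)ᶜ` there is `C ⊆ N` such that the number of `Q ∈ L` with `Q ⊆ Y ∪ C` is
odd: the number of the pairs `(Q, C)`, `Q ∈ L`, `C ⊆ N`, `Q ⊆ Y ∪ C`, is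
`sum_{Q ∈ L, Q \ N ⊆ Y} 2^(|N| - |Q ∩ N|)`, all the terms are even except the ones with `N ⊆ Q`,
i.e. `Q = N` (because of the sizes), which has the value `1`; so the sum is odd.
(2) For `X = Y ∪ C` as in (1), no `Q ∈ A'` is a subset of `X` (`w_Q ∉ X`). The map `Y ↦ X` is
injective (`Y = X \ N`), so there are at least `2^(n - |N| - |R|) ≥ 2^n (1/2)^(|N| + a)` sets `X`
with an odd number of `Q ∈ L ∪ A'`, `Q ⊆ X`.
(3) The number of the `X` which contain some `Q ∈ B'` is at most `sum_{Q ∈ B'} 2^(n - |Q|) ≤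
2^n (1/2)^(|N| + a + 1)`. Subtract. -/
def S_OddP : Prop := ∀ (n : ℕ) (Q : Finset (Finset (Fin n))) (N : Finset (Fin n)) (s t a : ℕ),
  N ∈ Q → N.card ≤ s → s ≤ t → (∀ L ∈ Q, L.card ≤ s → L.card ≤ N.card) →
  (Q.filter (fun L => s < L.card ∧ L.card ≤ t)).card ≤ a →
  ∑ L ∈ Q.filter (fun L => t < L.card), (1 / 2 : ℝ) ^ L.card ≤ (1 / 2 : ℝ) ^ (N.card + a + 1) →
  (2 : ℝ) ^ n * (1 / 2 : ℝ) ^ (N.card + a + 1) ≤
    ((univ.filter fun A : Finset (Fin n) => Odd (Q.filter (fun L => L ⊆ A)).card).card : ℝ)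

/-- (Tail, 30 lines) Proof: `(1/2)^x ≤ (m/x) (1/2)^m` for natural numbers `x ≥ m ≥ 1`, i.e.
`x ≤ m 2^(x - m)`. -/
def S_Tail : Prop := ∀ (n d K : ℕ) (P : Finset (Finset (Fin n))), HR d K P →
  ∀ (v : Fin n) (m : ℕ), d < m →
    ∑ M ∈ P.filter (fun M => v ∈ M ∧ m ≤ M.card), (1 / 2 : ℝ) ^ M.card ≤ K * (1 / 2 : ℝ) ^ m

/-- (InfL, 110 lines, uses S_OddP, S_Tail) Lower bound for the influences, `K ≥ 1`, `d ≤ D`,
`20 K ≤ D`. Proof. Let `v ∈ M₁ ∈ P`, `s = max |M₁| D`. Let `Q = {M \ {v} : v ∈ M ∈ P}`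
(`M ↦ M.erase v` is injective on these `M`, the sizes drop by one). `f A ≠ f (A △ {v})` iff the
number of `L ∈ Q` with `L ⊆ A` is odd (`f = ff P`; the factors of the `M` which do not contain `v`
do not change; if `v ∈ M`, then `M ⊆ A ∪ {v}` iff `M.erase v ⊆ A`, and `M ⊆ A \ {v}` is impossible).
Apply S_OddP with `s' = s - 1`, `N` an element of `Q` of size `≤ s - 1` with the greatest size
(exists because of `M₁`), `t' = 4 (s + 1) - 1`, `a = 4 K`: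
the number of `M ∋ v` with `s < |M| ≤ 4 (s + 1)` is at most `4 K` by HR for `m = s + 1 > d` (each
term `(s + 1) / |M|` is at least `1 / 4`); the sum of `(1/2)^(|M| - 1)` over the `M ∋ v` with
`|M| > 4 (s + 1)` is at most `2 K (1/2)^(4 s + 5)` by S_Tail, and this is
`≤ (1/2)^((s - 1) + 4 K + 1) ≤ (1/2)^(|N| + 4 K + 1)` since `K 2^(4 K) ≤ 2^(3 s + 4)`. Result:
`inf1 ≥ (1/2)^(|N| + 4 K + 1) ≥ (1/2)^(s + 4 K)`. -/
def S_InfL : Prop := ∀ (n d K D : ℕ) (P : Finset (Finset (Fin n))), HR d K P → 1 ≤ K → d ≤ D →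
  20 * K ≤ D → ∀ M ∈ P, ∀ v ∈ M, (1 / 2 : ℝ) ^ (max M.card D + 4 * K) ≤ inf1 (ff P) v

/-- (Asm, assembly, helper95.) -/
def S_Main : Prop := ∀ d K : ℕ, ∃ c : ℝ, 0 < c ∧ ∀ (n : ℕ) (P : Finset (Finset (Fin n))),
  HR d K P → ∃ S : Finset (Fin n), Real.exp (-c * tinf (ff P)) ≤ |fc (ff P) S|

/-! ### Part E -/

/-- (Gran, 110 lines, uses S_Par) Granularity. Proof: put
`g A = (1/2)^|S| * sum_{C ⊆ S} (-1)^|C| f ((A \ S) ∪ C)`. Then `fc g U = fc f (S ∪ U)` if `U` and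
`S` are disjoint, and `fc g U = 0` otherwise (`g` does not depend on the coordinates in `S`). So
`fc f S = (1/2)^n sum_A g A` and by S_Par `(1/2)^n sum_A g A ^ 2 = sum_{S' ⊇ S} fc f S' ^ 2`. Since
`2^|S| g A` is an integer, `|g A| ≤ 2^|S| g A ^ 2`. -/
def S_Gran : Prop := ∀ (n : ℕ) (f : Finset (Fin n) → ℝ), (∀ A, f A = 1 ∨ f A = -1) →
  ∀ S : Finset (Fin n), |fc f S| ≤
    2 ^ S.card * ∑ U ∈ univ.filter (fun U : Finset (Fin n) => S ⊆ U), fc f U ^ 2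

/-- (Jen, 50 lines) Jensen for a probability vector `p` on a finite set, in the two forms we need.
-/
def S_Jen : Prop := ∀ (ι : Type) [Fintype ι] (p w : ι → ℝ), (∀ i, 0 ≤ p i) → ∑ i, p i = 1 →
  (∀ i, 0 < w i) → ∑ i, p i * Real.log (w i) ≤ Real.log (∑ i, p i * w i)

/-- (EntB, 120 lines, uses S_Par, S_Gran, S_Jen) Entropy bound. Proof. Let `p S = fc f S ^ 2`,
`q S = sum_{U ⊇ S} p U` (so `p S ≤ q S ≤ 1`), `H = sum p log (1/p)` (terms with `p = 0` are `0` in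
Lean because `0 * _ = 0`). For `p S > 0`: S_Gran gives `log (1/q S) ≤ |S| log 2 + (1/2) log (1/p S)`.
So `H = sum p log (1/q) + sum p log (q/p) ≤ log 2 * tinf f + H/2 + D`, `D = sum p log (q/p)`
(over `p S > 0`), i.e. `H ≤ 2 log 2 * tinf f + 2 D`. Finally
`D = sum p log (q u^|S| / p) + log (1/u) tinf f` and by Jensen
`sum p log (q u^|S| / p) ≤ log (sum_{p S > 0} q S u^|S|) ≤ log (sum_S u^|S| sum_{U ⊇ S} p U)
= log (sum_U (1+u)^|U| p U)`. -/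
def S_EntB : Prop := ∀ (n : ℕ) (f : Finset (Fin n) → ℝ), (∀ A, f A = 1 ∨ f A = -1) →
  ∀ u : ℝ, 0 < u →
  ∑ S : Finset (Fin n), fc f S ^ 2 * Real.log (1 / fc f S ^ 2) ≤
    2 * Real.log (2 / u) * tinf f +
      2 * Real.log (∑ S : Finset (Fin n), (1 + u) ^ S.card * fc f S ^ 2)

/-- (MaxB, 60 lines, uses S_Par, S_Gran, S_Jen) Proof: by S_Gran
`sum_S (u/2)^|S| |fc f S| ≤ sum_S u^|S| sum_{U ⊇ S} fc f U ^ 2 = sum_U (1+u)^|U| fc f U ^ 2 =: E`. If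
`|fc f S| ≤ m` for all `S`, then `sum_S (u/2)^|S| fc f S ^ 2 ≤ m E`, and by Jensen
`sum_S (u/2)^|S| fc f S ^ 2 ≥ exp (log (u/2) tinf f) = (u/2)^(tinf f)`. Take `m` the maximum. -/
def S_MaxB : Prop := ∀ (n : ℕ) (f : Finset (Fin n) → ℝ), (∀ A, f A = 1 ∨ f A = -1) →
  ∀ u : ℝ, 0 < u → ∃ S : Finset (Fin n),
    (u / 2) ^ (tinf f) ≤ |fc f S| * ∑ U : Finset (Fin n), (1 + u) ^ U.card * fc f U ^ 2

end Pool.Agent.MP3145b1
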